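import Pool.Agent.X49.Cyc

/-!
A lower bound for the number of edges of a graph saturated for the family of all cycles of length
at least four.
-/

namespace Pool.Agent.X49

open SimpleGraph

section

variable {V : Type*} {G : SimpleGraph V}

/-- No four-cycles. -/
theorem no_c4 (hfree : ∀ l, 4 ≤ l → ¬ (cycleGraph l) ⊑ G) {a b c d : V} (hac : a ≠ c) (hbd : b ≠ d)
    (h1 : G.Adj a b) (h2 : G.Adj b c) (h3 : G.Adj c d) (h4 : G.Adj d a) : False := by
  apply hfree 4 le_rfl
  refine contained_of_path (l := 3)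
    (fun i => if i = 0 then a else if i = 1 then b else if i = 2 then c else d) ?_ ?_ ?_
  · intro i hi
    interval_cases i
    · simpa using h1
    · simpa using h2
    · simpa using h3
  · intro i hi j hj hij
    have := h1.ne
    have := h2.ne
    have := h3.ne
    have := h4.ne
    interval_cases i <;> interval_cases j <;> simp_all
  · simpa using h4

/-- The edge `uv` lies in a triangle. -/
def Tri (G : SimpleGraph V) (u v : V) : Prop := ∃ w, G.Adj u w ∧ G.Adj v w

theorem Tri.symm {u v : V} (h : Tri G u v) : Tri G v u := by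
  obtain ⟨w, h1, h2⟩ := h
  exact ⟨w, h2, h1⟩

theorem exists_path (hfree : ∀ l, 4 ≤ l → ¬ (cycleGraph l) ⊑ G)
    (hsat : ∀ x y : V, x ≠ y → ¬ G.Adj x y → ∃ l, 4 ≤ l ∧ (cycleGraph l) ⊑ G ⊔ edge x y)
    {x y : V} (hne : x ≠ y) (hadj : ¬ G.Adj x y) :
    ∃ m, 3 ≤ m ∧ ∃ p : ℕ → V, p 0 = x ∧ p m = y ∧ (∀ i < m, G.Adj (p i) (p (i + 1))) ∧
      ∀ i ≤ m, ∀ j ≤ m, p i = p j → i = j := by
  obtain ⟨l, hl, h⟩ := hsat x y hne hadj
  obtain ⟨m, rfl⟩ : ∃ m, l = m + 1 := ⟨l - 1, by omega⟩
  exact ⟨m, by omega, path_of_contained_edge (by omega) (hfree _ hl) h⟩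

/-- Every vertex is on at most one edge outside all triangles. -/
theorem unique_bridge (hfree : ∀ l, 4 ≤ l → ¬ (cycleGraph l) ⊑ G)
    (hsat : ∀ x y : V, x ≠ y → ¬ G.Adj x y → ∃ l, 4 ≤ l ∧ (cycleGraph l) ⊑ G ⊔ edge x y)
    {v x y : V} (hvx : G.Adj v x) (hvy : G.Adj v y) (hx : ¬ Tri G v x) (hy : ¬ Tri G v y) :
    x = y := by
  by_contra hxy
  have hnadj : ¬ G.Adj x y := fun h => hx ⟨y, hvy, h⟩
  obtain ⟨m, hm, p, p0, pm, padj, pinj⟩ := exists_path hfree hsat hxy hnadj
  by_cases hv : ∃ j ≤ m, p j = v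
  · obtain ⟨j, hj, hjv⟩ := hv
    have hj0 : j ≠ 0 := by
      rintro rfl
      exact hvx.ne (hjv.symm.trans p0)
    have hjm : j ≠ m := by
      rintro rfl
      exact hvy.ne (hjv.symm.trans pm)
    by_cases h3 : 3 ≤ j
    · apply hfree (j + 1) (by omega)
      refine contained_of_path p (fun i hi => padj i (by omega))
        (fun i hi k hk => pinj i (by omega) k (by omega)) ?_
      rw [hjv, p0]
      exact hvx
    · by_cases h2 : j = 2
      · subst h2
        apply hx
        refine ⟨p 1, ?_, ?_⟩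
        · rw [← hjv]
          exact (padj 1 (by omega)).symm
        · rw [← p0]
          exact padj 0 (by omega)
      · have h1 : j = 1 := by omega
        subst h1
        by_cases h4 : 4 ≤ m
        · apply hfree (m - 1 + 1) (by omega)
          refine contained_of_path (fun i => p (i + 1)) (fun i hi => padj (i + 1) (by omega))
            (fun i hi k hk h => ?_) ?_
          · have := pinj (i + 1) (by omega) (k + 1) (by omega) h
            omega
          · simp only [zero_add]
            rw [show m - 1 + 1 = m by omega, pm, hjv]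
            exact hvy.symm
        · have h5 : m = 3 := by omega
          subst h5
          apply hy
          refine ⟨p 2, ?_, ?_⟩
          · rw [← hjv]
            exact padj 1 (by omega)
          · rw [← pm]
            exact (padj 2 (by omega)).symm
  · push Not at hv
    apply hfree (m + 1 + 1) (by omega)
    refine contained_of_path (fun i => if i = 0 then v else p (i - 1)) ?_ ?_ ?_
    · intro i hi
      rcases Nat.eq_zero_or_pos i with h | h
      · subst h
        simpa [p0] using hvx
      · simp only [if_neg h.ne', Nat.add_one_ne_zero, if_false]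
        have := padj (i - 1) (by omega)
        rwa [show i - 1 + 1 = i + 1 - 1 by omega] at this
    · intro i hi j hj hij
      rcases Nat.eq_zero_or_pos i with h | h <;> rcases Nat.eq_zero_or_pos j with h' | h'
      · omega
      · subst h
        simp only [if_true, if_neg h'.ne'] at hij
        exact absurd hij.symm (hv _ (by omega))
      · subst h'
        simp only [if_true, if_neg h.ne'] at hij
        exact absurd hij (hv _ (by omega))
      · simp only [if_neg h.ne', if_neg h'.ne'] at hij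
        have := pinj _ (by omega) _ (by omega) hij
        omega
    · simp only [Nat.add_one_ne_zero, if_false, if_true]
      rw [show m + 1 - 1 = m by omega, pm]
      exact hvy.symm

theorem preconn (hfree : ∀ l, 4 ≤ l → ¬ (cycleGraph l) ⊑ G)
    (hsat : ∀ x y : V, x ≠ y → ¬ G.Adj x y → ∃ l, 4 ≤ l ∧ (cycleGraph l) ⊑ G ⊔ edge x y) :
    G.Preconnected := by
  intro x y
  by_cases hxy : x = y
  · subst hxy; exact Reachable.refl _
  by_cases hadj : G.Adj x y
  · exact hadj.reachable
  obtain ⟨m, hm, p, p0, pm, padj, -⟩ := exists_path hfree hsat hxy hadj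
  have : ∀ i ≤ m, G.Reachable (p 0) (p i) := by
    intro i
    induction i with
    | zero => intro _; exact Reachable.refl _
    | succ i ih =>
      intro hi
      exact (ih (by omega)).trans (padj i (by omega)).reachable
  have h := this m le_rfl
  rwa [p0, pm] at h

/-- A vertex outside all triangles is a leaf, and its neighbour is on a triangle. -/
theorem leaf_neighbor (hfree : ∀ l, 4 ≤ l → ¬ (cycleGraph l) ⊑ G)
    (hsat : ∀ x y : V, x ≠ y → ¬ G.Adj x y → ∃ l, 4 ≤ l ∧ (cycleGraph l) ⊑ G ⊔ edge x y)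
    (hcard : ∀ u v : V, ∃ z, z ≠ u ∧ z ≠ v)
    {v : V} (hv : ¬ ∃ u, G.Adj v u ∧ Tri G v u) :
    ∃ u, G.Adj v u ∧ ¬ Tri G v u ∧ ∃ w, G.Adj u w ∧ Tri G u w := by
  push Not at hv
  -- a neighbour
  obtain ⟨z0, hz0, -⟩ := hcard v v
  have hnb : ∃ u, G.Adj v u := by
    by_cases h : G.Adj v z0
    · exact ⟨_, h⟩
    · obtain ⟨m, hm, p, p0, pm, padj, -⟩ := exists_path hfree hsat hz0.symm h
      have := padj 0 (by omega)
      rw [p0] at this
      exact ⟨_, this⟩
  obtain ⟨u, hu⟩ := hnb
  refine ⟨u, hu, hv u hu, ?_⟩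
  obtain ⟨z, hzu, hzv⟩ := hcard u v
  have hnz : ¬ G.Adj v z := by
    intro h
    exact hzu (unique_bridge hfree hsat h hu (hv _ h) (hv _ hu))
  obtain ⟨m, hm, p, p0, pm, padj, pinj⟩ := exists_path hfree hsat hzv.symm hnz
  have h0 := padj 0 (by omega)
  rw [p0] at h0
  have h1 : p 1 = u := unique_bridge hfree hsat h0 hu (hv _ h0) (hv _ hu)
  have h2 := padj 1 (by omega)
  rw [h1] at h2
  refine ⟨p 2, h2, ?_⟩
  by_contra hcon
  have h3 := unique_bridge hfree hsat h2 hu.symm hcon (fun h => hv u hu h.symm)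
  have h4 := pinj 2 (by omega) 0 (by omega) (h3.trans p0.symm)
  omega

end

/-- The number of edges of a graph on `n ≥ 3` vertices that is saturated for the family of all
cycles of length at least four is at least `n - 1 + n / 6`. -/
theorem cactus_bound {V : Type*} [Finite V] {G : SimpleGraph V}
    (hfree : ∀ l, 4 ≤ l → ¬ (cycleGraph l) ⊑ G)
    (hsat : ∀ x y : V, x ≠ y → ¬ G.Adj x y → ∃ l, 4 ≤ l ∧ (cycleGraph l) ⊑ G ⊔ edge x y)
    (hn : 3 ≤ Nat.card V) : 7 * Nat.card V ≤ 6 * G.edgeSet.ncard + 6 := by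
  classical
  have := Fintype.ofFinite V
  let : LinearOrder V := linearOrderOfSTO (WellOrderingRel (α := V))
  rw [Nat.card_eq_fintype_card] at hn ⊢
  have hcard : ∀ u v : V, ∃ z, z ≠ u ∧ z ≠ v := by
    intro u v
    by_contra hcon
    push Not at hcon
    have h1 : (Finset.univ : Finset V) ⊆ {u, v} := by
      intro z _
      simp only [Finset.mem_insert, Finset.mem_singleton]
      by_contra h2
      push Not at h2
      exact h2.2 (hcon z h2.1)
    have h2 := Finset.card_le_card h1
    have h3 : ({u, v} : Finset V).card ≤ 2 := Finset.card_le_two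
    rw [Finset.card_univ] at h2
    omega
  -- the removed edges
  let Rp : Finset (V × V) := Finset.univ.filter fun e =>
    e.1 < e.2 ∧ G.Adj e.1 e.2 ∧ ∃ w, e.2 < w ∧ G.Adj e.1 w ∧ G.Adj e.2 w
  have hRp : ∀ u v, (u, v) ∈ Rp ↔ u < v ∧ G.Adj u v ∧ ∃ w, v < w ∧ G.Adj u w ∧ G.Adj v w := by
    intro u v; simp [Rp]
  let R : Set (Sym2 V) := (fun e : V × V => s(e.1, e.2)) '' (Rp : Set (V × V))
  have hRc : R.ncard = Rp.card := by
    rw [Set.InjOn.ncard_image, Set.ncard_coe_finset]
    rintro ⟨a, b⟩ h1 ⟨c, d⟩ h2 h3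
    have h1' := (hRp a b).mp (Finset.mem_coe.mp h1)
    have h2' := (hRp c d).mp (Finset.mem_coe.mp h2)
    simp only [Sym2.eq_iff] at h3
    rcases h3 with ⟨rfl, rfl⟩ | ⟨rfl, rfl⟩
    · rfl
    · exact absurd h1'.1 (not_lt.mpr h2'.1.le)
  have hRE : R ⊆ G.edgeSet := by
    rintro _ ⟨⟨a, b⟩, h1, rfl⟩
    exact ((hRp a b).mp (Finset.mem_coe.mp h1)).2.1
  have hRmem : ∀ u v, u < v → (s(u, v) ∈ R ↔ G.Adj u v ∧ ∃ w, v < w ∧ G.Adj u w ∧ G.Adj v w) := by
    intro u v huv
    constructor
    · rintro ⟨⟨a, b⟩, h1, h2⟩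
      have h1' := (hRp a b).mp (Finset.mem_coe.mp h1)
      simp only [Sym2.eq_iff] at h2
      rcases h2 with ⟨rfl, rfl⟩ | ⟨rfl, rfl⟩
      · exact h1'.2
      · exact absurd h1'.1 (not_lt.mpr huv.le)
    · rintro ⟨h1, h2⟩
      exact ⟨(u, v), Finset.mem_coe.mpr ((hRp u v).mpr ⟨huv, h1, h2⟩), rfl⟩
  let G' := G.deleteEdges R
  have hstep : ∀ u v, u < v → G.Adj u v → G'.Reachable u v := by
    intro u v huv hadj
    by_cases hR : s(u, v) ∈ R
    · obtain ⟨-, w, hw, huw, hvw⟩ := (hRmem u v huv).mp hR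
      have e1 : G'.Adj u w := by
        rw [deleteEdges_adj]
        refine ⟨huw, fun h => ?_⟩
        obtain ⟨-, z, hz, huz, hwz⟩ := (hRmem u w (huv.trans hw)).mp h
        exact no_c4 hfree (hw.trans hz).ne huw.ne hadj.symm huz hwz.symm hvw.symm
      have e2 : G'.Adj v w := by
        rw [deleteEdges_adj]
        refine ⟨hvw, fun h => ?_⟩
        obtain ⟨-, z, hz, hvz, hwz⟩ := (hRmem v w hw).mp h
        exact no_c4 hfree ((huv.trans hw).trans hz).ne hvw.ne hadj hvz hwz.symm huw.symm
      exact e1.reachable.trans e2.symm.reachable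
    · have : G'.Adj u v := by
        rw [deleteEdges_adj]
        exact ⟨hadj, hR⟩
      exact this.reachable
  have hpre : G'.Preconnected := by
    intro x y
    have hG := preconn hfree hsat x y
    obtain ⟨w⟩ := hG
    induction w with
    | nil => exact Reachable.refl _
    | @cons u v w h _ ih =>
      refine Reachable.trans ?_ ih
      rcases lt_trichotomy u v with h1 | h1 | h1
      · exact hstep _ _ h1 h
      · exact absurd h1 h.ne
      · exact (hstep _ _ h1 h.symm).symm
  have hne : Nonempty V := by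
    rw [← Fintype.card_pos_iff]; omega
  have hconn : G'.Connected := ⟨hpre⟩
  have hE' : Fintype.card V ≤ G'.edgeSet.ncard + 1 := by
    have := hconn.card_vert_le_card_edgeSet_add_one
    rwa [Nat.card_eq_fintype_card, Nat.card_coe_set_eq] at this
  have hEE : G'.edgeSet.ncard + Rp.card = G.edgeSet.ncard := by
    rw [← hRc, edgeSet_deleteEdges]
    exact Set.ncard_sdiff_add_ncard_of_subset hRE
  -- triangle vertices
  let A : Finset V := Finset.univ.filter fun v => ∃ u, G.Adj v u ∧ Tri G v u
  have hA : A.card ≤ Rp.card * 3 := by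
    let S : V × V → Finset V := fun e =>
      insert e.1 (insert e.2 (Finset.univ.filter fun w => e.2 < w ∧ G.Adj e.1 w ∧ G.Adj e.2 w))
    have h1 : A ⊆ Rp.biUnion S := by
      intro a ha
      obtain ⟨b, hab, c, hac, hbc⟩ := (Finset.mem_filter.mp ha).2
      -- sort the triangle
      have key : ∀ u v w : V, u < v → v < w → G.Adj u v → G.Adj u w → G.Adj v w →
          (a = u ∨ a = v ∨ a = w) → a ∈ Rp.biUnion S := by
        intro u v w huv hvw h1 h2 h3 h4
        rw [Finset.mem_biUnion]
        refine ⟨(u, v), (hRp u v).mpr ⟨huv, h1, w, hvw, h2, h3⟩, ?_⟩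
        simp only [S, Finset.mem_insert, Finset.mem_filter, Finset.mem_univ, true_and]
        rcases h4 with h4 | h4 | h4
        · exact Or.inl h4
        · exact Or.inr (Or.inl h4)
        · exact Or.inr (Or.inr (h4 ▸ ⟨hvw, h2, h3⟩))
      rcases lt_or_gt_of_ne hab.ne with h1 | h1 <;> rcases lt_or_gt_of_ne hac.ne with h2 | h2 <;>
        rcases lt_or_gt_of_ne hbc.ne with h3 | h3
      · exact key a b c h1 h3 hab hac hbc (by tauto)
      · exact key a c b h2 h3 hac hab hbc.symm (by tauto)
      · exact absurd (h1.trans h3) (not_lt.mpr h2.le)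
      · exact key c a b h2 h1 hac.symm hbc.symm hab (by tauto)
      · exact key b a c h1 h2 hab.symm hbc hac (by tauto)
      · exact absurd (h3.trans h1) (not_lt.mpr h2.le)
      · exact key b c a h3 h2 hbc hab.symm hac.symm (by tauto)
      · exact key c b a h3 h1 hbc.symm hac.symm hab.symm (by tauto)
    refine (Finset.card_le_card h1).trans (Finset.card_biUnion_le_card_mul _ _ _ ?_)
    rintro ⟨u, v⟩ he
    obtain ⟨huv, hadj, -⟩ := (hRp u v).mp he
    have h2 : (Finset.univ.filter fun w => v < w ∧ G.Adj u w ∧ G.Adj v w).card ≤ 1 := by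
      rw [Finset.card_le_one]
      intro w hw w' hw'
      simp only [Finset.mem_filter, Finset.mem_univ, true_and] at hw hw'
      by_contra hne
      exact no_c4 hfree hne huv.ne hw.2.1.symm hw'.2.1 hw'.2.2.symm hw.2.2
    calc (S (u, v)).card ≤ (insert v (Finset.univ.filter
            fun w => v < w ∧ G.Adj u w ∧ G.Adj v w)).card + 1 := Finset.card_insert_le _ _
      _ ≤ (Finset.univ.filter fun w => v < w ∧ G.Adj u w ∧ G.Adj v w).card + 1 + 1 := by
          gcongr; exact Finset.card_insert_le _ _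
      _ ≤ 3 := by omega
  have hAc : (Finset.univ \ A).card ≤ A.card := by
    have hex : ∀ v : V, v ∈ Finset.univ \ A → ∃ u, u ∈ A ∧ G.Adj v u ∧ ¬ Tri G v u := by
      intro v hv
      have hv' : ¬ ∃ u, G.Adj v u ∧ Tri G v u := by
        simpa [A] using hv
      obtain ⟨u, h1, h2, h3⟩ := leaf_neighbor hfree hsat hcard hv'
      exact ⟨u, by simpa [A] using h3, h1, h2⟩
    choose! f hf using hex
    refine Finset.card_le_card_of_injOn f (fun v hv => (hf v hv).1) ?_
    intro v hv v' hv' heq
    have h1 := hf v hv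
    have h2 := hf v' hv'
    rw [← heq] at h2
    exact unique_bridge hfree hsat h1.2.1.symm h2.2.1.symm (fun h => h1.2.2 h.symm)
      (fun h => h2.2.2 h.symm)
  have htot : (Finset.univ \ A).card + A.card = Fintype.card V := by
    rw [← Finset.card_univ]
    exact Finset.card_sdiff_add_card_eq_card (Finset.subset_univ A)
  omega

end Pool.Agent.X49
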