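import Mathlib

/-!
Gallai's partition of a graph into an odd and an even induced subgraph, and the decomposition of
`P₄`-free graphs.
-/

namespace Pool.Agent.X49

open SimpleGraph

/-- The diagonal of a symmetric matrix over the field with two elements is in its range. -/
theorem diag_mem_range {V : Type*} [DecidableEq V] : ∀ (m : ℕ) (s : Finset V), s.card = m →
    ∀ M : V → V → ZMod 2, (∀ a b, M a b = M b a) →
    ∃ x : V → ZMod 2, ∀ a ∈ s, ∑ u ∈ s, M a u * x u = M a a := by
  have two : ∀ z : ZMod 2, z + z = 0 := by decide
  intro m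
  induction m with
  | zero =>
    intro s hs M _
    refine ⟨fun _ => 0, fun a ha => ?_⟩
    rw [Finset.card_eq_zero] at hs
    subst hs
    simp at ha
  | succ m ih =>
    intro s hs M hM
    by_cases h : ∃ v ∈ s, M v v = 1
    · obtain ⟨v, hv, hvv⟩ := h
      have hs' : (s.erase v).card = m := by rw [Finset.card_erase_of_mem hv]; omega
      obtain ⟨x, hx⟩ := ih (s.erase v) hs' (fun a b => M a b + M a v * M v b) (by
        intro a b
        rw [hM a b, hM a v, hM v b]
        ring)
      refine ⟨fun u => if u = v then 1 + ∑ w ∈ s.erase v, M v w * x w else x u, fun a ha => ?_⟩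
      rw [← Finset.add_sum_erase s _ hv]
      beta_reduce
      rw [if_pos rfl]
      have h1 : ∑ u ∈ s.erase v, M a u *
          (if u = v then 1 + ∑ w ∈ s.erase v, M v w * x w else x u) =
          ∑ u ∈ s.erase v, M a u * x u := by
        apply Finset.sum_congr rfl
        intro u hu
        rw [if_neg (Finset.ne_of_mem_erase hu)]
      rw [h1]
      by_cases hav : a = v
      · subst hav
        rw [hvv, one_mul, add_assoc, two, add_zero]
      · have h2 := hx a (Finset.mem_erase.mpr ⟨hav, ha⟩)
        simp only [add_mul, Finset.sum_add_distrib] at h2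
        have h3 : ∑ u ∈ s.erase v, M a v * M v u * x u = M a v * ∑ u ∈ s.erase v, M v u * x u := by
          rw [Finset.mul_sum]
          exact Finset.sum_congr rfl fun u _ => by ring
        rw [h3] at h2
        have h4 : M a v * M v a = M a v := by
          rw [hM v a]
          have : ∀ z : ZMod 2, z * z = z := by decide
          exact this _
        rw [h4] at h2
        have h5 : M a v + (M a v * ∑ w ∈ s.erase v, M v w * x w + ∑ u ∈ s.erase v, M a u * x u) =
            M a v + (M a a + M a v) := by
          rw [← h2]; ring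
        rw [mul_add, mul_one, add_assoc, h5]
        rw [add_comm (M a a), ← add_assoc, two, zero_add]
    · push Not at h
      refine ⟨fun _ => 0, fun a ha => ?_⟩
      have h1 : ∀ z : ZMod 2, z ≠ 1 → z = 0 := by decide
      simp [h1 _ (h a ha)]

section

variable {V : Type*} [DecidableEq V] (G : SimpleGraph V) [DecidableRel G.Adj]

/-- The number of neighbours of `v` in `S`. -/
def dS (S : Finset V) (v : V) : ℕ := (S.filter fun u => G.Adj v u).card

/-- All degrees in the subgraph induced by `S` are odd. -/
def OddOn (S : Finset V) : Prop := ∀ v ∈ S, Odd (dS G S v)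

/-- All degrees in the subgraph induced by `S` are even. -/
def EvenOn (S : Finset V) : Prop := ∀ v ∈ S, Even (dS G S v)

variable {G}

theorem dS_union {S T : Finset V} (h : Disjoint S T) (v : V) :
    dS G (S ∪ T) v = dS G S v + dS G T v := by
  unfold dS
  rw [Finset.filter_union, Finset.card_union_of_disjoint]
  exact Finset.disjoint_filter_filter h

omit [DecidableEq V] in
theorem dS_full {S : Finset V} {v : V} (h : ∀ u ∈ S, G.Adj v u) : dS G S v = S.card := by
  unfold dS
  rw [Finset.filter_true_of_mem h]

omit [DecidableEq V] in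
theorem dS_none {S : Finset V} {v : V} (h : ∀ u ∈ S, ¬ G.Adj v u) : dS G S v = 0 := by
  unfold dS
  rw [Finset.filter_false_of_mem h]
  rfl

/-- Gallai: every graph has a partition into an odd and an even induced subgraph. -/
theorem gallai (s : Finset V) : ∃ B ⊆ s, OddOn G B ∧ EvenOn G (s \ B) := by
  classical
  -- add a vertex joined to everything
  let M : Option V → Option V → ZMod 2 := fun a b =>
    match a, b with
    | none, none => s.card
    | none, some _ => 1
    | some _, none => 1
    | some a, some b => if a = b then (dS G s a : ZMod 2) + 1 else if G.Adj a b then 1 else 0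
  have hM : ∀ a b, M a b = M b a := by
    rintro (_ | a) (_ | b)
    · rfl
    · rfl
    · rfl
    · simp only [M]
      by_cases h : a = b
      · subst h; rfl
      · rw [if_neg h, if_neg (Ne.symm h)]
        by_cases h' : G.Adj a b
        · rw [if_pos h', if_pos h'.symm]
        · rw [if_neg h', if_neg (fun h'' => h' h''.symm)]
  obtain ⟨x, hx⟩ := diag_mem_range _ (Finset.insertNone s) rfl M hM
  -- the vertices in the same part as the new vertex
  have hcast : ∀ (T : Finset V) (a : V), ((dS G T a : ℕ) : ZMod 2) =
      ∑ u ∈ T, if G.Adj a u then (1 : ZMod 2) else 0 := by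
    intro T a
    unfold dS
    rw [Finset.card_filter]
    push_cast
    rfl
  have key : ∀ a ∈ s, x none + ((dS G s a : ZMod 2) + 1) * x (some a) +
      ∑ u ∈ s, (if G.Adj a u then (1 : ZMod 2) else 0) * x (some u) = dS G s a + 1 := by
    intro a ha
    have h1 := hx (some a) (by simpa using ha)
    rw [Finset.sum_insertNone] at h1
    simp only [M, one_mul, if_true] at h1
    have h2 : ∑ u ∈ s, (if a = u then (dS G s a : ZMod 2) + 1 else
        if G.Adj a u then 1 else 0) * x (some u) = ((dS G s a : ZMod 2) + 1) * x (some a) +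
        ∑ u ∈ s, (if G.Adj a u then (1 : ZMod 2) else 0) * x (some u) := by
      rw [← Finset.add_sum_erase s (fun u => (if a = u then (dS G s a : ZMod 2) + 1 else
        if G.Adj a u then 1 else 0) * x (some u)) ha]
      rw [← Finset.add_sum_erase s (fun u => (if G.Adj a u then (1 : ZMod 2) else 0) *
        x (some u)) ha]
      beta_reduce
      rw [if_pos rfl, if_neg (G.loopless.irrefl a), zero_mul, zero_add]
      congr 1
      apply Finset.sum_congr rfl
      intro u hu
      rw [if_neg (Finset.ne_of_mem_erase hu).symm]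
    rw [h2] at h1
    rw [add_assoc]
    exact h1
  have z2 : ∀ z : ZMod 2, z = 0 ∨ z = 1 := by decide
  have odd_iff : ∀ k : ℕ, Odd k ↔ (k : ZMod 2) = 1 := fun k => (ZMod.natCast_eq_one_iff_odd).symm
  have even_iff : ∀ k : ℕ, Even k ↔ (k : ZMod 2) = 0 := fun k => (ZMod.natCast_eq_zero_iff_even).symm
  refine ⟨s.filter fun v => x (some v) = x none, Finset.filter_subset _ _, ?_, ?_⟩
  · intro v hv
    rw [Finset.mem_filter] at hv
    have h1 := key v hv.1
    rw [odd_iff, hcast]
    rw [Finset.sum_filter]
    have h2 : ∑ u ∈ s, (if G.Adj v u then (1 : ZMod 2) else 0) * x (some u) +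
        (∑ u ∈ s, if x (some u) = x none then (if G.Adj v u then (1 : ZMod 2) else 0) else 0) =
        (dS G s v : ZMod 2) * (x none + 1) + ∑ u ∈ s, 0 := by
      rw [hcast, Finset.sum_mul, ← Finset.sum_add_distrib, ← Finset.sum_add_distrib]
      apply Finset.sum_congr rfl
      intro u _
      rw [add_zero]
      by_cases hu : G.Adj v u
      · simp only [hu, if_true, one_mul]
        rcases z2 (x (some u)) with h3 | h3 <;> rcases z2 (x none) with h4 | h4 <;>
          simp [h3, h4] <;> decide
      · simp [hu]
    rw [Finset.sum_const_zero, add_zero] at h2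
    rw [hv.2] at h1
    have e1 : ∀ X D A B : ZMod 2, X + (D + 1) * X + A = D + 1 → A + B = D * (X + 1) → B = 1 := by
      decide
    exact e1 _ _ _ _ h1 h2
  · intro v hv
    rw [Finset.mem_sdiff, Finset.mem_filter] at hv
    have hv1 := hv.1
    have hv2 : x (some v) ≠ x none := fun h => hv.2 ⟨hv1, h⟩
    have h1 := key v hv1
    rw [even_iff, hcast]
    have h0 : s \ (s.filter fun v => x (some v) = x none) =
        s.filter fun v => ¬ x (some v) = x none := by
      ext u
      simp only [Finset.mem_sdiff, Finset.mem_filter]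
      tauto
    rw [h0, Finset.sum_filter]
    have h2 : ∑ u ∈ s, (if G.Adj v u then (1 : ZMod 2) else 0) * x (some u) +
        (∑ u ∈ s, if ¬ x (some u) = x none then (if G.Adj v u then (1 : ZMod 2) else 0) else 0) =
        (dS G s v : ZMod 2) * (x none) + ∑ u ∈ s, 0 := by
      rw [hcast, Finset.sum_mul, ← Finset.sum_add_distrib, ← Finset.sum_add_distrib]
      apply Finset.sum_congr rfl
      intro u _
      rw [add_zero]
      by_cases hu : G.Adj v u
      · simp only [hu, if_true, one_mul]
        rcases z2 (x (some u)) with h3 | h3 <;> rcases z2 (x none) with h4 | h4 <;>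
          simp [h3, h4] <;> decide
      · simp [hu]
    rw [Finset.sum_const_zero, add_zero] at h2
    have e1 : ∀ X Y D A B : ZMod 2, Y ≠ X → X + (D + 1) * Y + A = D + 1 → A + B = D * X → B = 0 := by
      decide
    exact e1 _ _ _ _ _ hv2 h1 h2

/-- Odd induced subgraphs have an even number of vertices. -/
theorem OddOn.even_card [Fintype V] {S : Finset V} (h : OddOn G S) : Even S.card := by
  classical
  let H : SimpleGraph V :=
    { Adj := fun u v => G.Adj u v ∧ u ∈ S ∧ v ∈ S
      symm := ⟨fun _ _ h => ⟨h.1.symm, h.2.2, h.2.1⟩⟩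
      loopless := ⟨fun u h => G.loopless.irrefl u h.1⟩ }
  have h1 := H.even_card_odd_degree_vertices
  have h2 : (Finset.univ.filter fun v => Odd (H.degree v)) = S := by
    ext v
    simp only [Finset.mem_filter, Finset.mem_univ, true_and]
    by_cases hv : v ∈ S
    · have h3 : H.degree v = dS G S v := by
        rw [← card_neighborFinset_eq_degree]
        unfold dS
        congr 1
        ext u
        rw [mem_neighborFinset, Finset.mem_filter]
        constructor
        · rintro ⟨h4, h5, h6⟩
          exact ⟨h6, h4⟩
        · rintro ⟨h4, h5⟩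
          exact ⟨h5, hv, h4⟩
      rw [h3]
      exact ⟨fun _ => hv, fun _ => h v hv⟩
    · have h3 : H.degree v = 0 := by
        rw [← card_neighborFinset_eq_degree, Finset.card_eq_zero]
        ext u
        rw [mem_neighborFinset]
        simp only [Finset.notMem_empty, iff_false]
        rintro ⟨h4, h5, h6⟩
        exact hv h5
      rw [h3]
      simp [hv]
  rwa [h2] at h1

/-- In a join there is a large odd induced subgraph. -/
theorem join_odd [Fintype V] {X Y : Finset V} (hX : X.Nonempty) (hY : Y.Nonempty)
    (hXY : Disjoint X Y) (hj : ∀ x ∈ X, ∀ y ∈ Y, G.Adj x y) :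
    ∃ S ⊆ X ∪ Y, OddOn G S ∧ X.card + Y.card ≤ 2 * S.card + 2 := by
  -- make the cardinalities odd
  have hodd : ∀ X : Finset V, X.Nonempty → ∃ X' ⊆ X, Odd X'.card ∧ X.card ≤ X'.card + 1 := by
    intro X hX
    rcases Nat.even_or_odd X.card with h | h
    · obtain ⟨x, hx⟩ := hX
      refine ⟨X.erase x, Finset.erase_subset _ _, ?_, ?_⟩
      · rw [Finset.card_erase_of_mem hx]
        have : 0 < X.card := Finset.card_pos.mpr ⟨x, hx⟩
        obtain ⟨k, hk⟩ := h
        exact ⟨k - 1, by omega⟩
      · rw [Finset.card_erase_of_mem hx]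
        omega
    · exact ⟨X, Finset.Subset.refl _, h, by omega⟩
  obtain ⟨X', hX', oX, cX⟩ := hodd X hX
  obtain ⟨Y', hY', oY, cY⟩ := hodd Y hY
  obtain ⟨B, hB, oB, eB⟩ := gallai (G := G) X'
  obtain ⟨C, hC, oC, eC⟩ := gallai (G := G) Y'
  have bB := oB.even_card
  have bC := oC.even_card
  have cB : (X' \ B).card + B.card = X'.card := Finset.card_sdiff_add_card_eq_card hB
  have cC : (Y' \ C).card + C.card = Y'.card := Finset.card_sdiff_add_card_eq_card hC
  have disj : ∀ P Q : Finset V, P ⊆ X → Q ⊆ Y → Disjoint P Q := fun P Q hP hQ =>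
    Finset.disjoint_of_subset_left hP (Finset.disjoint_of_subset_right hQ hXY)
  have combine : ∀ P Q : Finset V, P ⊆ X → Q ⊆ Y →
      (∀ v ∈ P, Odd (dS G P v + Q.card)) → (∀ v ∈ Q, Odd (dS G Q v + P.card)) →
      OddOn G (P ∪ Q) := by
    intro P Q hP hQ h1 h2 v hv
    rw [dS_union (disj P Q hP hQ)]
    rcases Finset.mem_union.mp hv with hv | hv
    · rw [dS_full (S := Q) (fun u hu => hj v (hP hv) u (hQ hu))]
      exact h1 v hv
    · rw [dS_full (S := P) (fun u hu => (hj u (hP hu) v (hQ hv)).symm), add_comm]
      exact h2 v hv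
  have BX : B ⊆ X := hB.trans hX'
  have CY : C ⊆ Y := hC.trans hY'
  have BX' : X' \ B ⊆ X := Finset.sdiff_subset.trans hX'
  have CY' : Y' \ C ⊆ Y := Finset.sdiff_subset.trans hY'
  have o1 : OddOn G (B ∪ C) := combine B C BX CY
    (fun v hv => (oB v hv).add_even bC) (fun v hv => (oC v hv).add_even bB)
  have oB' : Odd (X' \ B).card := by
    rw [← cB] at oX
    rw [Nat.odd_add] at oX
    exact oX.mpr bB
  have oC' : Odd (Y' \ C).card := by
    rw [← cC] at oY
    rw [Nat.odd_add] at oY
    exact oY.mpr bC
  have o2 : OddOn G ((X' \ B) ∪ (Y' \ C)) := combine _ _ BX' CY'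
    (fun v hv => (eB v hv).add_odd oC') (fun v hv => (eC v hv).add_odd oB')
  have k1 := Finset.card_union_of_disjoint (disj B C BX CY)
  have k2 := Finset.card_union_of_disjoint (disj _ _ BX' CY')
  rcases Nat.le_total (B ∪ C).card ((X' \ B) ∪ (Y' \ C)).card with h | h
  · exact ⟨_, Finset.union_subset_union BX' CY', o2, by omega⟩
  · exact ⟨_, Finset.union_subset_union BX CY, o1, by omega⟩

end

/-- A relation without induced path on four vertices splits (Seinsche's theorem). -/
theorem seinsche {V : Type*} [DecidableEq V] : ∀ (s : Finset V), 2 ≤ s.card →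
    ∀ R : V → V → Prop, (∀ a b, R a b → R b a) →
    (∀ a ∈ s, ∀ b ∈ s, ∀ c ∈ s, ∀ d ∈ s, a ≠ b → a ≠ c → a ≠ d → b ≠ c → b ≠ d → c ≠ d →
      R a b → R b c → R c d → ¬ R a c → ¬ R b d → ¬ R a d → False) →
    ∃ X Y : Finset V, X.Nonempty ∧ Y.Nonempty ∧ Disjoint X Y ∧ X ∪ Y = s ∧
      ((∀ x ∈ X, ∀ y ∈ Y, ¬ R x y) ∨ (∀ x ∈ X, ∀ y ∈ Y, R x y)) := by
  intro s
  induction s using Finset.induction_on with
  | empty => intro h; simp at h
  | insert v t hv ih =>
    intro hcard
    rw [Finset.card_insert_of_notMem hv] at hcard
    -- the case where the smaller set splits without edges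
    have main : ∀ R : V → V → Prop, (∀ a b, R a b → R b a) →
        (∀ a ∈ insert v t, ∀ b ∈ insert v t, ∀ c ∈ insert v t, ∀ d ∈ insert v t,
          a ≠ b → a ≠ c → a ≠ d → b ≠ c → b ≠ d → c ≠ d →
          R a b → R b c → R c d → ¬ R a c → ¬ R b d → ¬ R a d → False) →
        (∃ X Y : Finset V, X.Nonempty ∧ Y.Nonempty ∧ Disjoint X Y ∧ X ∪ Y = t ∧
          (∀ x ∈ X, ∀ y ∈ Y, ¬ R x y)) →
        ∃ X Y : Finset V, X.Nonempty ∧ Y.Nonempty ∧ Disjoint X Y ∧ X ∪ Y = insert v t ∧
          ((∀ x ∈ X, ∀ y ∈ Y, ¬ R x y) ∨ (∀ x ∈ X, ∀ y ∈ Y, R x y)) := by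
      intro R hsymm hP hsplit
      classical
      by_cases hall : ∀ u ∈ t, R v u
      · obtain ⟨X, Y, hX, hY, -, hXY, -⟩ := hsplit
        refine ⟨{v}, t, Finset.singleton_nonempty v, ?_, ?_, ?_, Or.inr ?_⟩
        · rw [← hXY]; exact hX.mono Finset.subset_union_left
        · rwa [Finset.disjoint_singleton_left]
        · rw [Finset.insert_eq]
        · intro x hx y hy
          rw [Finset.mem_singleton] at hx
          subst hx
          exact hall y hy
      · push Not at hall
        obtain ⟨w, hw, hvw⟩ := hall
        -- wlog `w` is in the first part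
        have hsplit' : ∃ X Y : Finset V, w ∈ X ∧ Y.Nonempty ∧ Disjoint X Y ∧ X ∪ Y = t ∧
            (∀ x ∈ X, ∀ y ∈ Y, ¬ R x y) := by
          obtain ⟨X, Y, hX, hY, hd, hXY, hn⟩ := hsplit
          rw [← hXY, Finset.mem_union] at hw
          rcases hw with hw | hw
          · exact ⟨X, Y, hw, hY, hd, hXY, hn⟩
          · exact ⟨Y, X, hw, hX, hd.symm, by rw [Finset.union_comm]; exact hXY,
              fun x hx y hy h => hn y hy x hx (hsymm _ _ h)⟩
        obtain ⟨X, Y, hwX, hY, hd, hXY, hn⟩ := hsplit'
        have hXt : X ⊆ t := by rw [← hXY]; exact Finset.subset_union_left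
        have hYt : Y ⊆ t := by rw [← hXY]; exact Finset.subset_union_right
        have hvX : v ∉ X := fun h => hv (hXt h)
        have hvY : v ∉ Y := fun h => hv (hYt h)
        have hsd : ∀ Z : Finset V, Z ⊆ insert v t → Z ∪ (insert v t \ Z) = insert v t :=
          fun Z hZ => Finset.union_sdiff_of_subset hZ
        by_cases hz : ∃ z ∈ Y, R v z
        · obtain ⟨z, hz, hvz⟩ := hz
          let X0 := X.filter fun u => ¬ R v u
          have hX0 : X0 ⊆ insert v t := (Finset.filter_subset _ _).trans
            (hXt.trans (Finset.subset_insert _ _))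
          refine ⟨X0, insert v t \ X0, ⟨w, Finset.mem_filter.mpr ⟨hwX, hvw⟩⟩, ⟨v, ?_⟩,
            Finset.disjoint_sdiff, hsd X0 hX0, Or.inl ?_⟩
          · rw [Finset.mem_sdiff]
            exact ⟨Finset.mem_insert_self _ _, fun h => hvX (Finset.mem_filter.mp h).1⟩
          · intro b hb a ha hba
            rw [Finset.mem_filter] at hb
            rw [Finset.mem_sdiff, Finset.mem_insert] at ha
            obtain ⟨ha1, ha2⟩ := ha
            rcases ha1 with rfl | ha1
            · exact hb.2 (hsymm _ _ hba)
            · rw [← hXY, Finset.mem_union] at ha1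
              rcases ha1 with ha1 | ha1
              · have hva : R v a := by
                  by_contra h
                  exact ha2 (Finset.mem_filter.mpr ⟨ha1, h⟩)
                have hzX : z ∉ X := fun h => Finset.disjoint_left.mp hd h hz
                refine hP z (Finset.mem_insert_of_mem (hYt hz)) v (Finset.mem_insert_self _ _)
                  a (Finset.mem_insert_of_mem (hXt ha1)) b (Finset.mem_insert_of_mem (hXt hb.1))
                  ?_ ?_ ?_ ?_ ?_ ?_ (hsymm _ _ hvz) hva (hsymm _ _ hba)
                  (fun h => hn a ha1 z hz (hsymm _ _ h)) hb.2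
                  (fun h => hn b hb.1 z hz (hsymm _ _ h))
                · rintro rfl; exact hvY hz
                · rintro rfl; exact hzX ha1
                · rintro rfl; exact hzX hb.1
                · rintro rfl; exact hvX ha1
                · rintro rfl; exact hvX hb.1
                · rintro rfl; exact hb.2 hva
              · exact hn b hb.1 a ha1 hba
        · push Not at hz
          refine ⟨Y, insert v t \ Y, hY, ⟨v, ?_⟩, Finset.disjoint_sdiff,
            hsd Y (hYt.trans (Finset.subset_insert _ _)), Or.inl ?_⟩
          · rw [Finset.mem_sdiff]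
            exact ⟨Finset.mem_insert_self _ _, hvY⟩
          · intro y hy x hx hyx
            rw [Finset.mem_sdiff, Finset.mem_insert] at hx
            obtain ⟨hx1, hx2⟩ := hx
            rcases hx1 with rfl | hx1
            · exact hz y hy (hsymm _ _ hyx)
            · rw [← hXY, Finset.mem_union] at hx1
              rcases hx1 with hx1 | hx1
              · exact hn x hx1 y hy (hsymm _ _ hyx)
              · exact hx2 hx1
    intro R hsymm hP
    rcases Nat.lt_or_ge t.card 2 with h1 | h1
    · -- two vertices
      have h2 : t.card = 1 := by omega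
      obtain ⟨w, rfl⟩ := Finset.card_eq_one.mp h2
      refine ⟨{v}, {w}, Finset.singleton_nonempty v, Finset.singleton_nonempty w, ?_, ?_, ?_⟩
      · rwa [Finset.disjoint_singleton_left]
      · rw [Finset.insert_eq]
      · by_cases h : R v w
        · right
          intro x hx y hy
          rw [Finset.mem_singleton] at hx hy
          subst hx hy
          exact h
        · left
          intro x hx y hy
          rw [Finset.mem_singleton] at hx hy
          subst hx hy
          exact h
    · obtain ⟨X, Y, hX, hY, hd, hXY, h⟩ := ih h1 R hsymm (fun a ha b hb c hc d hd =>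
        hP a (Finset.mem_insert_of_mem ha) b (Finset.mem_insert_of_mem hb)
          c (Finset.mem_insert_of_mem hc) d (Finset.mem_insert_of_mem hd))
      rcases h with h | h
      · exact main R hsymm hP ⟨X, Y, hX, hY, hd, hXY, h⟩
      · -- pass to the complement
        obtain ⟨X', Y', hX', hY', hd', hXY', h'⟩ := main (fun a b => ¬ R a b)
          (fun a b h h' => h (hsymm _ _ h')) (by
            intro a ha b hb c hc d hd n1 n2 n3 n4 n5 n6 h1 h2 h3 h4 h5 h6
            rw [not_not] at h4 h5 h6
            exact hP c hc a ha d hd b hb n2.symm n6 n4.symm n3 n1 n5.symm (hsymm _ _ h4) h6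
              (hsymm _ _ h5) h3 h1 (fun h => h2 (hsymm _ _ h)))
          ⟨X, Y, hX, hY, hd, hXY, fun x hx y hy => not_not.mpr (h x hx y hy)⟩
        refine ⟨X', Y', hX', hY', hd', hXY', ?_⟩
        rcases h' with h' | h'
        · right
          intro x hx y hy
          exact not_not.mp (h' x hx y hy)
        · left
          exact h'

/-- A `P₄`-free graph without isolated vertices has an odd induced subgraph with at least a third
of all vertices. -/
theorem third_odd {V : Type*} [DecidableEq V] [Fintype V] {G : SimpleGraph V} [DecidableRel G.Adj]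
    (hP : ∀ a b c d, G.Adj a b → G.Adj b c → G.Adj c d → ¬ G.Adj a c → ¬ G.Adj b d →
      ¬ G.Adj a d → a ≠ c → b ≠ d → a ≠ d → False) :
    ∀ (m : ℕ) (s : Finset V), s.card = m → (∀ v ∈ s, ∃ u ∈ s, G.Adj v u) →
      ∃ S ⊆ s, OddOn G S ∧ s.card ≤ 3 * S.card := by
  intro m
  induction m using Nat.strong_induction_on with
  | _ m ih =>
    intro s hs hiso
    rcases s.eq_empty_or_nonempty with rfl | ⟨v, hv⟩
    · exact ⟨∅, Finset.Subset.refl _, fun v hv => by simp at hv, by simp⟩
    obtain ⟨u, hu, hvu⟩ := hiso v hv
    have h2 : 2 ≤ s.card := by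
      have : 1 < s.card := Finset.one_lt_card.mpr ⟨v, hv, u, hu, hvu.ne⟩
      omega
    obtain ⟨X, Y, hX, hY, hd, hXY, h⟩ := seinsche s h2 G.Adj (fun a b h => h.symm)
      (fun a _ b _ c _ d _ _ n2 n3 _ n5 _ h1 h2 h3 h4 h5 h6 =>
        hP a b c d h1 h2 h3 h4 h5 h6 n2 n5 n3)
    have hcard : X.card + Y.card = s.card := by
      rw [← hXY, Finset.card_union_of_disjoint hd]
    have pX := Finset.card_pos.mpr hX
    have pY := Finset.card_pos.mpr hY
    rcases h with h | h
    · obtain ⟨S, hS, oS, cS⟩ := ih X.card (by omega) X rfl (by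
        intro a ha
        obtain ⟨b, hb, hab⟩ := hiso a (by rw [← hXY]; exact Finset.mem_union_left _ ha)
        rw [← hXY, Finset.mem_union] at hb
        rcases hb with hb | hb
        · exact ⟨b, hb, hab⟩
        · exact absurd hab (h a ha b hb))
      obtain ⟨T, hT, oT, cT⟩ := ih Y.card (by omega) Y rfl (by
        intro a ha
        obtain ⟨b, hb, hab⟩ := hiso a (by rw [← hXY]; exact Finset.mem_union_right _ ha)
        rw [← hXY, Finset.mem_union] at hb
        rcases hb with hb | hb
        · exact absurd hab.symm (h b hb a ha)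
        · exact ⟨b, hb, hab⟩)
      have hST : Disjoint S T :=
        Finset.disjoint_of_subset_left hS (Finset.disjoint_of_subset_right hT hd)
      refine ⟨S ∪ T, by rw [← hXY]; exact Finset.union_subset_union hS hT, ?_, ?_⟩
      · intro a ha
        rw [dS_union hST]
        rcases Finset.mem_union.mp ha with ha | ha
        · rw [dS_none (S := T) (fun b hb => h a (hS ha) b (hT hb)), add_zero]
          exact oS a ha
        · rw [dS_none (S := S) (fun b hb hab => h b (hS hb) a (hT ha) hab.symm), zero_add]
          exact oT a ha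
      · rw [Finset.card_union_of_disjoint hST]
        omega
    · rcases Nat.lt_or_ge s.card 6 with h6 | h6
      · obtain ⟨x, hx⟩ := hX
        obtain ⟨y, hy⟩ := hY
        have hxy := h x hx y hy
        refine ⟨{x, y}, ?_, ?_, ?_⟩
        · intro z hz
          rw [← hXY]
          rw [Finset.mem_insert, Finset.mem_singleton] at hz
          rcases hz with rfl | rfl
          · exact Finset.mem_union_left _ hx
          · exact Finset.mem_union_right _ hy
        · intro z hz
          rw [Finset.mem_insert, Finset.mem_singleton] at hz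
          have hone : ∀ a b : V, G.Adj a b → dS G {a, b} a = 1 := by
            intro a b hab
            unfold dS
            rw [Finset.card_eq_one]
            refine ⟨b, ?_⟩
            ext c
            simp only [Finset.mem_filter, Finset.mem_insert, Finset.mem_singleton]
            constructor
            · rintro ⟨rfl | rfl, hc⟩
              · exact absurd hc (G.loopless.irrefl _)
              · rfl
            · rintro rfl
              exact ⟨Or.inr rfl, hab⟩
          rcases hz with rfl | rfl
          · rw [hone _ _ hxy]; exact odd_one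
          · rw [Finset.pair_comm, hone _ _ hxy.symm]; exact odd_one
        · rw [Finset.card_pair hxy.ne]
          omega
      · obtain ⟨S, hS, oS, cS⟩ := join_odd hX hY hd h
        exact ⟨S, by rw [← hXY]; exact hS, oS, by omega⟩

end Pool.Agent.X49
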