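import Mathlib

/-!
Periodic parametrisations of the cycles contained in a graph.
-/

namespace Pool.Agent.X49

open SimpleGraph

variable {V : Type*}

/-- `g : ℤ → V` runs around a cycle of length `l` of `G`. -/
structure IsCyc (G : SimpleGraph V) (l : ℕ) (g : ℤ → V) : Prop where
  adj : ∀ k, G.Adj (g k) (g (k + 1))
  inj : ∀ j k, g j = g k ↔ (l : ℤ) ∣ k - j

theorem IsCyc.mono {G H : SimpleGraph V} (h : G ≤ H) {l : ℕ} {g : ℤ → V} (hg : IsCyc G l g) :
    IsCyc H l g := ⟨fun k => h (hg.adj k), hg.inj⟩

theorem IsCyc.shift {G : SimpleGraph V} {l : ℕ} {g : ℤ → V} (hg : IsCyc G l g) (c : ℤ) :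
    IsCyc G l (fun k => g (k + c)) := by
  refine ⟨fun k => ?_, fun j k => ?_⟩
  · have := hg.adj (k + c)
    rwa [show k + c + 1 = k + 1 + c by ring] at this
  · rw [hg.inj]
    rw [show k + c - (j + c) = k - j by ring]

theorem IsCyc.neg {G : SimpleGraph V} {l : ℕ} {g : ℤ → V} (hg : IsCyc G l g) :
    IsCyc G l (fun k => g (-k)) := by
  refine ⟨fun k => ?_, fun j k => ?_⟩
  · have := hg.adj (-(k + 1))
    rw [show -(k + 1) + 1 = -k by ring] at this
    exact this.symm
  · rw [hg.inj]
    rw [show -k - -j = -(k - j) by ring, dvd_neg]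

theorem contained_iff {G : SimpleGraph V} {l : ℕ} (hl : 3 ≤ l) :
    (cycleGraph l) ⊑ G ↔ ∃ g : ℤ → V, IsCyc G l g := by
  have hl0 : (0 : ℤ) < l := by omega
  constructor
  · rintro ⟨f⟩
    refine ⟨fun k => f ⟨(k % l).toNat, by
      have := Int.emod_lt_of_pos k hl0
      have := Int.emod_nonneg k hl0.ne'
      omega⟩, fun k => ?_, fun j k => ?_⟩
    · apply f.toHom.map_adj
      rw [cycleGraph_adj']
      right
      rw [Fin.sub_def]
      simp only
      have h1 := Int.emod_lt_of_pos k hl0
      have h2 := Int.emod_nonneg k hl0.ne'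
      have h3 := Int.emod_lt_of_pos (k + 1) hl0
      have h4 := Int.emod_nonneg (k + 1) hl0.ne'
      have h5 : (k + 1) % l = (k % l + 1) % l := by rw [Int.emod_add_emod]
      by_cases hc : k % l + 1 < l
      · have h6 : (k + 1) % l = k % l + 1 := by
          rw [h5]; exact Int.emod_eq_of_lt (by omega) hc
        have h7 : l - (k % l).toNat + ((k + 1) % l).toNat = l + 1 := by omega
        rw [h7, Nat.add_mod_left, Nat.mod_eq_of_lt (by omega)]
      · have h6 : k % l + 1 = l := by omega
        have h7 : (k + 1) % l = 0 := by rw [h5, h6]; simp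
        have h8 : l - (k % l).toNat + ((k + 1) % l).toNat = 1 := by omega
        rw [h8, Nat.mod_eq_of_lt (by omega)]
    · have h1 := Int.emod_nonneg k hl0.ne'
      have h2 := Int.emod_nonneg j hl0.ne'
      constructor
      · intro h
        have h3 := f.injective h
        rw [Fin.mk.injEq] at h3
        have : j % l = k % l := by omega
        exact Int.ModEq.dvd this
      · intro h
        have := (Int.modEq_iff_dvd.mpr h)
        have h3 : j % l = k % l := this
        simp only [h3]
  · rintro ⟨g, hg⟩
    refine ⟨⟨⟨fun i => g (i.val : ℤ), ?_⟩, ?_⟩⟩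
    · intro u v huv
      rw [cycleGraph_adj'] at huv
      wlog h : (v - u).val = 1 generalizing u v
      · exact (this huv.symm (by tauto)).symm
      · have h1 : g (v.val : ℤ) = g ((u.val : ℤ) + 1) := by
          rw [hg.inj]
          rw [Fin.sub_def] at h
          simp only at h
          have h2 : (l - u.val + v.val) % l = 1 % l := by rw [h, Nat.mod_eq_of_lt (by omega)]
          have h3 : (l - u.val + v.val) ≡ 1 [MOD l] := h2
          have h4 := (Nat.modEq_iff_dvd.mp h3)
          have h5 : ((l - u.val + v.val : ℕ) : ℤ) = l - u.val + v.val := by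
            have := u.isLt
            push_cast [Nat.cast_sub this.le]
            ring
          rw [h5] at h4
          have h6 : (u.val : ℤ) + 1 - v.val = (((1 : ℕ) : ℤ) - (l - u.val + v.val)) + l := by
            push_cast; ring
          rw [h6]
          exact dvd_add h4 (dvd_refl _)
        show G.Adj (g u.val) (g v.val)
        rw [h1]
        exact hg.adj _
    · intro u v huv
      have h1 := (hg.inj _ _).mp huv
      have hu := u.isLt
      have hv := v.isLt
      apply Fin.ext
      obtain ⟨c, hc⟩ := h1
      have : c = 0 := by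
        by_contra hc0
        rcases lt_or_gt_of_ne hc0 with h | h
        · have : (l : ℤ) * c ≤ l * (-1) := by
            apply mul_le_mul_of_nonneg_left _ hl0.le
            omega
          omega
        · have : (l : ℤ) * 1 ≤ l * c := by
            apply mul_le_mul_of_nonneg_left _ hl0.le
            omega
          omega
      subst this
      omega

/-- A path together with an edge closing it. -/
theorem contained_of_path {G : SimpleGraph V} {l : ℕ} (p : ℕ → V)
    (hadj : ∀ i < l, G.Adj (p i) (p (i + 1))) (hinj : ∀ i ≤ l, ∀ j ≤ l, p i = p j → i = j)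
    (hclose : G.Adj (p l) (p 0)) : (cycleGraph (l + 1)) ⊑ G := by
  refine ⟨⟨⟨fun i => p i.val, ?_⟩, ?_⟩⟩
  · intro u v huv
    rw [cycleGraph_adj'] at huv
    wlog h : (v - u).val = 1 generalizing u v
    · exact (this huv.symm (by tauto)).symm
    · rw [Fin.sub_def] at h
      simp only at h
      have hu := u.isLt
      have hv := v.isLt
      show G.Adj (p u.val) (p v.val)
      by_cases hc : v.val = u.val + 1
      · rw [hc]; exact hadj _ (by omega)
      · have h1 : u.val = l ∧ v.val = 0 := by
          by_cases h2 : u.val ≤ v.val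
          · have h3 : l + 1 - u.val + v.val = (v.val - u.val) + (l + 1) := by omega
            rw [h3, Nat.add_mod_right, Nat.mod_eq_of_lt (by omega)] at h
            omega
          · rw [Nat.mod_eq_of_lt (by omega)] at h
            omega
        rw [h1.1, h1.2]
        exact hclose
  · intro u v huv
    exact Fin.ext (hinj _ (by omega) _ (by omega) huv)

/-- If adding the edge `xy` creates a cycle of length `l + 1`, then there is a path with `l` edges
from `x` to `y`. -/
theorem path_of_contained_edge {G : SimpleGraph V} {x y : V} {l : ℕ} (hl : 2 ≤ l)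
    (hn : ¬ (cycleGraph (l + 1)) ⊑ G) (h : (cycleGraph (l + 1)) ⊑ G ⊔ edge x y) :
    ∃ p : ℕ → V, p 0 = x ∧ p l = y ∧ (∀ i < l, G.Adj (p i) (p (i + 1))) ∧
      ∀ i ≤ l, ∀ j ≤ l, p i = p j → i = j := by
  rw [contained_iff (by omega)] at hn h
  obtain ⟨g, hg⟩ := h
  have h1 : ∃ k, ¬ G.Adj (g k) (g (k + 1)) := by
    by_contra hcon
    push Not at hcon
    exact hn ⟨g, hcon, hg.inj⟩
  obtain ⟨k, hk⟩ := h1
  have hk2 := hg.adj k
  rw [sup_adj, edge_adj] at hk2
  have hk3 : (g k = x ∧ g (k + 1) = y) ∨ (g k = y ∧ g (k + 1) = x) := by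
    rcases hk2 with h | h
    · exact absurd h hk
    · tauto
  -- reduce to the second case
  have key : ∀ g : ℤ → V, IsCyc (G ⊔ edge x y) (l + 1) g → g (-1) = y → g 0 = x →
      ∃ p : ℕ → V, p 0 = x ∧ p l = y ∧ (∀ i < l, G.Adj (p i) (p (i + 1))) ∧
      ∀ i ≤ l, ∀ j ≤ l, p i = p j → i = j := by
    intro g hg hy hx
    refine ⟨fun i => g (i : ℤ), by simpa using hx, ?_, ?_, ?_⟩
    · rw [← hy]
      show g l = g (-1)
      rw [hg.inj]
      exact ⟨-1, by push_cast; ring⟩
    · intro i hi
      have h2 := hg.adj i
      rw [sup_adj, edge_adj] at h2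
      rcases h2 with h2 | ⟨h2, h3⟩
      · simpa using h2
      · exfalso
        rcases h2 with ⟨h4, h5⟩ | ⟨h4, h5⟩
        · rw [← hy, hg.inj] at h5
          obtain ⟨c, hc⟩ := h5
          have h6 : ((l + 1 : ℕ) : ℤ) * (-c) = i + 2 := by
            rw [mul_neg, ← hc]; ring
          have h7 : 0 < -c := by
            by_contra h8
            push Not at h8
            have : ((l + 1 : ℕ) : ℤ) * (-c) ≤ 0 := mul_nonpos_of_nonneg_of_nonpos (by omega) h8
            omega
          have h8 : -c < 2 := by
            by_contra h8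
            push Not at h8
            have : ((l + 1 : ℕ) : ℤ) * 2 ≤ ((l + 1 : ℕ) : ℤ) * (-c) :=
              mul_le_mul_of_nonneg_left h8 (by omega)
            push_cast at *
            omega
          have h9 : -c = 1 := by omega
          rw [h9] at h6
          push_cast at h6
          -- i + 2 = l + 1, so i = l - 1, and g i = x = g 0
          rw [← hx, hg.inj] at h4
          obtain ⟨d, hd⟩ := h4
          have h10 : d = 0 ∨ d ≤ -1 ∨ 1 ≤ d := by omega
          rcases h10 with h10 | h10 | h10
          · subst h10; omega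
          · have : ((l + 1 : ℕ) : ℤ) * d ≤ ((l + 1 : ℕ) : ℤ) * (-1) :=
              mul_le_mul_of_nonneg_left h10 (by omega)
            push_cast at *
            omega
          · have : ((l + 1 : ℕ) : ℤ) * 1 ≤ ((l + 1 : ℕ) : ℤ) * d :=
              mul_le_mul_of_nonneg_left h10 (by omega)
            push_cast at *
            omega
        · rw [← hx, hg.inj] at h5
          obtain ⟨c, hc⟩ := h5
          rw [← hy, hg.inj] at h4
          have h6 : ((l + 1 : ℕ) : ℤ) * (-c) = i + 1 := by
            rw [mul_neg, ← hc]; ring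
          have h7 : 0 < -c := by
            by_contra h8
            push Not at h8
            have : ((l + 1 : ℕ) : ℤ) * (-c) ≤ 0 := mul_nonpos_of_nonneg_of_nonpos (by omega) h8
            omega
          have : ((l + 1 : ℕ) : ℤ) * 1 ≤ ((l + 1 : ℕ) : ℤ) * (-c) :=
            mul_le_mul_of_nonneg_left h7 (by omega)
          push_cast at *
          omega
    · intro i hi j hj hij
      have h2 := (hg.inj _ _).mp hij
      obtain ⟨c, hc⟩ := h2
      have h10 : c = 0 ∨ c ≤ -1 ∨ 1 ≤ c := by omega
      rcases h10 with h10 | h10 | h10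
      · subst h10; omega
      · have : ((l + 1 : ℕ) : ℤ) * c ≤ ((l + 1 : ℕ) : ℤ) * (-1) :=
          mul_le_mul_of_nonneg_left h10 (by omega)
        push_cast at *
        omega
      · have : ((l + 1 : ℕ) : ℤ) * 1 ≤ ((l + 1 : ℕ) : ℤ) * c :=
          mul_le_mul_of_nonneg_left h10 (by omega)
        push_cast at *
        omega
  rcases hk3 with ⟨h2, h3⟩ | ⟨h2, h3⟩
  · apply key (fun j => g (-j + k)) ((hg.shift k).neg)
    · show g (-(-1) + k) = y
      rw [← h3]; congr 1; ring
    · show g (-0 + k) = x
      rw [← h2]; congr 1; ring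
  · apply key (fun j => g (j + (k + 1))) (hg.shift (k + 1))
    · show g (-1 + (k + 1)) = y
      rw [← h2]; congr 1; ring
    · show g (0 + (k + 1)) = x
      rw [← h3]; congr 1; ring

end Pool.Agent.X49
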