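import Mathlib

/-!
The number of copies of the star `K_{1,n}` through a vertex.
-/

namespace Pool.Agent.X49

open SimpleGraph

variable {V : Type*} {G : SimpleGraph V}

/-- The star subgraph with centre `c` and leaf set `L`. -/
def starSub (c : V) (L : Finset V) (h : ∀ v ∈ L, G.Adj c v) : G.Subgraph where
  verts := insert c (L : Set V)
  Adj a b := (a = c ∧ b ∈ L) ∨ (b = c ∧ a ∈ L)
  adj_sub := by
    rintro a b (⟨rfl, hb⟩ | ⟨rfl, ha⟩)
    · exact h b hb
    · exact (h a ha).symm
  edge_vert := by
    rintro a b (⟨rfl, hb⟩ | ⟨rfl, ha⟩)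
    · exact Set.mem_insert _ _
    · exact Set.mem_insert_of_mem _ ha
  symm := ⟨fun a b h => h.symm⟩

/-- The star `K_{1,n}`. -/
abbrev Star (n : ℕ) : SimpleGraph (Unit ⊕ Fin n) := completeBipartiteGraph Unit (Fin n)

theorem starSub_iso {n : ℕ} (c : V) (L : Finset V) (h : ∀ v ∈ L, G.Adj c v) (hL : L.card = n) :
    Nonempty (Star n ≃g (starSub (G := G) c L h).coe) := by
  classical
  have e := L.equivFinOfCardEq hL
  let f : Copy (Star n) G := ⟨⟨fun x => Sum.elim (fun _ => c) (fun i => (e.symm i : V)) x, by
    rintro (a | a) (b | b) hab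
    · simp at hab
    · exact h _ (e.symm b).2
    · exact (h _ (e.symm a).2).symm
    · simp at hab⟩, by
    have hc : ∀ i, c ≠ (e.symm i : V) := fun i => (h _ (e.symm i).2).ne
    rintro (a | a) (b | b) hab
    · rfl
    · exact absurd hab (hc b)
    · exact absurd hab.symm (hc a)
    · have : (e.symm a : V) = e.symm b := hab
      rw [Subtype.coe_injective.eq_iff, e.symm.injective.eq_iff] at this
      rw [this]⟩
  have hf : f.toSubgraph = starSub (G := G) c L h := by
    ext a b
    · simp only [starSub, Subgraph.map_verts, Subgraph.verts_top, Set.image_univ, Set.mem_range,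
        Set.mem_insert_iff, Finset.mem_coe]
      constructor
      · rintro ⟨x | x, rfl⟩
        · exact Or.inl rfl
        · exact Or.inr (e.symm x).2
      · rintro (rfl | ha)
        · exact ⟨Sum.inl (), rfl⟩
        · refine ⟨Sum.inr (e ⟨a, ha⟩), ?_⟩
          show ((e.symm (e ⟨a, ha⟩) : L) : V) = a
          rw [e.symm_apply_apply]
    · simp only [starSub, Subgraph.map_adj, Relation.Map]
      constructor
      · rintro ⟨x, y, hxy, rfl, rfl⟩
        rcases x with x | x <;> rcases y with y | y
        · simp at hxy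
        · exact Or.inl ⟨rfl, (e.symm y).2⟩
        · exact Or.inr ⟨rfl, (e.symm x).2⟩
        · simp at hxy
      · rintro (⟨rfl, hb⟩ | ⟨rfl, ha⟩)
        · refine ⟨Sum.inl (), Sum.inr (e ⟨b, hb⟩), by simp, rfl, ?_⟩
          show ((e.symm (e ⟨b, hb⟩) : L) : V) = b
          rw [e.symm_apply_apply]
        · refine ⟨Sum.inr (e ⟨a, ha⟩), Sum.inl (), by simp, ?_, rfl⟩
          show ((e.symm (e ⟨a, ha⟩) : L) : V) = a
          rw [e.symm_apply_apply]
  rw [← hf]
  exact ⟨f.isoToSubgraph⟩

/-- Choosing the subsets through a given point. -/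
theorem card_powersetCard_mem {α : Type*} [DecidableEq α] (s : Finset α) (x : α) (hx : x ∈ s)
    (n : ℕ) (hn : 1 ≤ n) : ((s.powersetCard n).filter fun L => x ∈ L).card =
      (s.card - 1).choose (n - 1) := by
  have h1 : (s.powersetCard n).filter (fun L => ¬ x ∈ L) = (s.erase x).powersetCard n := by
    ext L
    simp only [Finset.mem_filter, Finset.mem_powersetCard, Finset.subset_erase]
    tauto
  have h2 := Finset.card_filter_add_card_filter_not (s := s.powersetCard n) (fun L => x ∈ L)
  rw [h1, Finset.card_powersetCard, Finset.card_powersetCard, Finset.card_erase_of_mem hx] at h2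
  have h3 : s.card.choose n = (s.card - 1).choose (n - 1) + (s.card - 1).choose n := by
    have h4 : 1 ≤ s.card := Finset.card_pos.mpr ⟨x, hx⟩
    obtain ⟨m, hm⟩ : ∃ m, s.card = m + 1 := ⟨s.card - 1, by omega⟩
    obtain ⟨k, rfl⟩ : ∃ k, n = k + 1 := ⟨n - 1, by omega⟩
    rw [hm]
    simp [Nat.choose_succ_succ]
  omega

variable [Fintype V] [DecidableEq V] [DecidableRel G.Adj]

/-- The number of subgraphs isomorphic to `K_{1,n}` through `x`. -/
theorem starDegree (n : ℕ) (hn : 2 ≤ n) (x : V) :
    {S : G.Subgraph | Nonempty (Star n ≃g S.coe) ∧ x ∈ S.verts}.ncard =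
      (G.degree x).choose n + ∑ y ∈ G.neighborFinset x, (G.degree y - 1).choose (n - 1) := by
  classical
  let P : Finset (V × Finset V) := (Finset.univ ×ˢ Finset.univ).filter fun p =>
    p.2 ∈ (G.neighborFinset p.1).powersetCard n ∧ (x = p.1 ∨ x ∈ p.2)
  have hP : ∀ c L, (c, L) ∈ P ↔ (L ⊆ G.neighborFinset c ∧ L.card = n) ∧ (x = c ∨ x ∈ L) := by
    intro c L
    simp [P, Finset.mem_powersetCard]
  let Φ : V × Finset V → G.Subgraph := fun p =>
    if h : ∀ v ∈ p.2, G.Adj p.1 v then starSub p.1 p.2 h else ⊥
  have hadj : ∀ c L, (c, L) ∈ P → ∀ v ∈ L, G.Adj c v := by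
    intro c L h v hv
    have := ((hP c L).mp h).1.1 hv
    simpa using this
  have hΦ : ∀ c L (h : (c, L) ∈ P), Φ (c, L) = starSub c L (hadj c L h) := by
    intro c L h
    simp only [Φ]
    rw [dif_pos (hadj c L h)]
  have h1 : {S : G.Subgraph | Nonempty (Star n ≃g S.coe) ∧ x ∈ S.verts} = Φ '' (P : Set _) := by
    ext S
    constructor
    · rintro ⟨hS, hx⟩
      have hS' : S ∈ {B' : G.Subgraph | Nonempty (Star n ≃g B'.coe)} := hS
      rw [← Copy.range_toSubgraph] at hS'
      obtain ⟨f, rfl⟩ := hS'
      have hL : (Finset.univ.image fun i : Fin n => f (Sum.inr i)).card = n := by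
        rw [Finset.card_image_of_injective]
        · simp
        · intro i j hij
          have := f.injective hij
          simpa using this
      have hx' : x = f (Sum.inl ()) ∨ x ∈ (Finset.univ.image fun i : Fin n => f (Sum.inr i)) := by
        simp only [Subgraph.map_verts, Subgraph.verts_top, Set.image_univ, Set.mem_range] at hx
        obtain ⟨y | y, rfl⟩ := hx
        · exact Or.inl rfl
        · exact Or.inr (Finset.mem_image_of_mem _ (Finset.mem_univ _))
      have hmem : (f (Sum.inl ()), Finset.univ.image fun i : Fin n => f (Sum.inr i)) ∈ P := by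
        rw [hP]
        refine ⟨⟨?_, hL⟩, hx'⟩
        intro v hv
        obtain ⟨i, -, rfl⟩ := Finset.mem_image.mp hv
        rw [mem_neighborFinset]
        exact f.toHom.map_adj (by simp)
      refine ⟨_, hmem, ?_⟩
      rw [hΦ _ _ hmem]
      ext a b
      · simp only [starSub, Subgraph.map_verts, Subgraph.verts_top, Set.image_univ, Set.mem_range,
          Set.mem_insert_iff, Finset.mem_coe, Finset.mem_image, Finset.mem_univ, true_and]
        constructor
        · rintro (rfl | ⟨i, rfl⟩)
          · exact ⟨Sum.inl (), rfl⟩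
          · exact ⟨Sum.inr i, rfl⟩
        · rintro ⟨y | y, rfl⟩
          · exact Or.inl rfl
          · exact Or.inr ⟨y, rfl⟩
      · simp only [starSub, Subgraph.map_adj, Relation.Map, Finset.mem_image, Finset.mem_univ,
          true_and]
        constructor
        · rintro (⟨rfl, i, rfl⟩ | ⟨rfl, i, rfl⟩)
          · exact ⟨Sum.inl (), Sum.inr i, by simp, rfl, rfl⟩
          · exact ⟨Sum.inr i, Sum.inl (), by simp, rfl, rfl⟩
        · rintro ⟨y, z, hyz, rfl, rfl⟩
          rcases y with y | y <;> rcases z with z | z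
          · simp at hyz
          · exact Or.inl ⟨rfl, z, rfl⟩
          · exact Or.inr ⟨rfl, y, rfl⟩
          · simp at hyz
    · rintro ⟨⟨c, L⟩, hmem, rfl⟩
      rw [hΦ _ _ hmem]
      have h2 := (hP c L).mp hmem
      refine ⟨starSub_iso c L _ h2.1.2, ?_⟩
      show x ∈ insert c (L : Set V)
      rcases h2.2 with h | h
      · exact Or.inl h
      · exact Or.inr h
  have h2 : Set.InjOn Φ (P : Set _) := by
    rintro ⟨c, L⟩ h ⟨c', L'⟩ h' heq
    rw [hΦ _ _ h, hΦ _ _ h'] at heq
    have hA : ∀ a b, ((a = c ∧ b ∈ L) ∨ (b = c ∧ a ∈ L)) ↔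
        ((a = c' ∧ b ∈ L') ∨ (b = c' ∧ a ∈ L')) := by
      intro a b
      have := congrFun (congrFun (congrArg Subgraph.Adj heq) a) b
      exact iff_of_eq this
    have hcL : c ∉ L := fun hc => (hadj c L h c hc).ne rfl
    have hcL' : c' ∉ L' := fun hc => (hadj c' L' h' c' hc).ne rfl
    have hcc : c = c' := by
      by_contra hne
      have hL2 : 1 < L.card := by rw [((hP c L).mp h).1.2]; omega
      obtain ⟨a, ha, b, hb, hab⟩ := Finset.one_lt_card.mp hL2
      have h3 := (hA c a).mp (Or.inl ⟨rfl, ha⟩)
      have h4 := (hA c b).mp (Or.inl ⟨rfl, hb⟩)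
      rcases h3 with h3 | h3
      · exact hne h3.1
      · rcases h4 with h4 | h4
        · exact hne h4.1
        · exact hab (h3.1.trans h4.1.symm)
    subst hcc
    have hLL : L = L' := by
      ext b
      have := hA c b
      constructor
      · intro hb
        rcases this.mp (Or.inl ⟨rfl, hb⟩) with h3 | h3
        · exact h3.2
        · exact absurd h3.2 hcL'
      · intro hb
        rcases this.mpr (Or.inl ⟨rfl, hb⟩) with h3 | h3
        · exact h3.2
        · exact absurd h3.2 hcL
    rw [hLL]
  rw [h1, h2.ncard_image, Set.ncard_coe_finset]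
  -- count the pairs
  have h3 : P.card = ∑ c : V, ((G.neighborFinset c).powersetCard n |>.filter
      fun L => x = c ∨ x ∈ L).card := by
    rw [← Finset.card_sigma]
    refine Finset.card_bij' (fun p _ => ⟨p.1, p.2⟩) (fun p _ => (p.1, p.2)) ?_ ?_ ?_ ?_
    · rintro ⟨c, L⟩ h
      rw [hP] at h
      simp only [Finset.mem_sigma, Finset.mem_univ, Finset.mem_filter, Finset.mem_powersetCard,
        true_and]
      exact h
    · rintro ⟨c, L⟩ h
      rw [hP]
      simpa only [Finset.mem_sigma, Finset.mem_univ, Finset.mem_filter, Finset.mem_powersetCard,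
        true_and] using h
    · rintro ⟨c, L⟩ _; rfl
    · rintro ⟨c, L⟩ _; rfl
  rw [h3, ← Finset.add_sum_erase _ _ (Finset.mem_univ x)]
  congr 1
  · rw [Finset.filter_true_of_mem (fun L _ => Or.inl rfl), Finset.card_powersetCard,
      card_neighborFinset_eq_degree]
  · have h4 : G.neighborFinset x ⊆ Finset.univ.erase x := by
      intro y hy
      rw [mem_neighborFinset] at hy
      simpa using hy.ne'
    rw [← Finset.sum_subset h4]
    · refine Finset.sum_congr rfl fun y hy => ?_
      rw [mem_neighborFinset] at hy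
      have h5 : ((G.neighborFinset y).powersetCard n).filter (fun L => x = y ∨ x ∈ L) =
          ((G.neighborFinset y).powersetCard n).filter (fun L => x ∈ L) := by
        apply Finset.filter_congr
        intro L _
        simp [hy.ne]
      rw [h5, card_powersetCard_mem _ _ (by simpa using hy.symm) _ (by omega),
        card_neighborFinset_eq_degree]
    · intro y hy hny
      rw [mem_neighborFinset] at hny
      rw [Finset.card_eq_zero, Finset.filter_eq_empty_iff]
      intro L hL h5
      rw [Finset.mem_powersetCard] at hL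
      rcases h5 with rfl | h5
      · simp at hy
      · have := hL.1 h5
        rw [mem_neighborFinset] at this
        exact hny this.symm

end Pool.Agent.X49
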