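import Pool.Agent.X49.Cyc

/-!
Generalised theta graphs: two hubs joined by `D` paths with `q` inner vertices each.
-/

namespace Pool.Agent.X49

open SimpleGraph

/-- The vertices: two hubs and `q` inner vertices on each of the `D` lanes. -/
abbrev TV (D q : ℕ) := Bool ⊕ (Fin D × Fin q)

variable {D q : ℕ}

/-- Position of a vertex along its lane. -/
def pos : TV D q → ℕ
  | .inl false => 0
  | .inl true => q + 1
  | .inr (_, i) => i.val + 1

theorem pos_f : pos (.inl false : TV D q) = 0 := rfl
theorem pos_t : pos (.inl true : TV D q) = q + 1 := rfl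
theorem pos_r (a : Fin D) (i : Fin q) : pos (.inr (a, i) : TV D q) = i.val + 1 := rfl

/-- Two vertices lie on a common lane. -/
def compat : TV D q → TV D q → Prop
  | .inr (a, _), .inr (b, _) => a = b
  | .inl _, _ => True
  | .inr _, .inl _ => True

theorem compat_symm : ∀ {u v : TV D q}, compat u v → compat v u
  | .inr (_, _), .inr (_, _), h => Eq.symm h
  | .inl _, .inl _, _ => trivial
  | .inl _, .inr _, _ => trivial
  | .inr _, .inl _, _ => trivial

/-- The generalised theta graph. -/
def theta (D q : ℕ) : SimpleGraph (TV D q) where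
  Adj u v := compat u v ∧ (pos u + 1 = pos v ∨ pos v + 1 = pos u)
  symm := ⟨fun _ _ h => ⟨compat_symm h.1, h.2.symm⟩⟩
  loopless := ⟨fun u h => by have := h.2; omega⟩

theorem theta_adj {u v : TV D q} :
    (theta D q).Adj u v ↔ compat u v ∧ (pos u + 1 = pos v ∨ pos v + 1 = pos u) := Iff.rfl

/-- The `k`-th vertex of the lane `a`. -/
def pt (a : Fin D) (k : ℕ) : TV D q :=
  if h : k = 0 then .inl false else if h' : k ≤ q then .inr (a, ⟨k - 1, by omega⟩) else .inl true

theorem pt_zero (a : Fin D) : (pt a 0 : TV D q) = .inl false := by simp [pt]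

theorem pt_last (a : Fin D) : (pt a (q + 1) : TV D q) = .inl true := by simp [pt]

theorem pos_pt (a : Fin D) {k : ℕ} (hk : k ≤ q + 1) : pos (pt a k : TV D q) = k := by
  unfold pt
  split_ifs with h h'
  · simp [pos, h]
  · simp only [pos]; omega
  · simp only [pos]; omega

theorem pos_le (u : TV D q) : pos u ≤ q + 1 := by
  rcases u with b | ⟨a, i⟩
  · cases b <;> simp [pos]
  · simp only [pos]; omega

theorem pt_pos (a : Fin D) (i : Fin q) : (pt a (i.val + 1) : TV D q) = .inr (a, i) := by
  unfold pt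
  rw [dif_neg (by omega), dif_pos (by omega)]
  simp

theorem eq_pt_of_compat {a : Fin D} {i : Fin q} {v : TV D q} (h : compat (.inr (a, i)) v) :
    v = pt a (pos v) := by
  rcases v with b | ⟨c, j⟩
  · cases b
    · simp [pos, pt_zero]
    · simp [pos, pt_last]
  · have : a = c := h
    subst this
    simp [pos, pt_pos]

theorem compat_pt (a : Fin D) (j k : ℕ) : compat (pt a j : TV D q) (pt a k) := by
  unfold pt
  split_ifs <;> simp [compat]

theorem adj_pt (a : Fin D) {k : ℕ} (hk : k ≤ q) : (theta D q).Adj (pt a k) (pt a (k + 1)) := by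
  rw [theta_adj]
  refine ⟨compat_pt _ _ _, Or.inl ?_⟩
  rw [pos_pt _ (by omega), pos_pt _ (by omega)]

/-- All cycles of the theta graph have length `2 (q + 1)`. -/
theorem theta_cycle (hq : 1 ≤ q) {l : ℕ} (hl : 3 ≤ l) {g : ℤ → TV D q}
    (hg : IsCyc (theta D q) l g) : l = 2 * (q + 1) := by
  -- no repetition at distance two
  have h2 : ∀ k, g k ≠ g (k + 2) := by
    intro k hk
    rw [hg.inj] at hk
    rw [show k + 2 - k = 2 by ring] at hk
    have := Int.le_of_dvd (by norm_num) hk
    omega
  obtain ⟨k0, hk0⟩ : ∃ k0, ∀ k, pos (g k0) ≤ pos (g k) := by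
    have : (Set.range fun k => pos (g k)).Nonempty := ⟨_, ⟨0, rfl⟩⟩
    obtain ⟨k0, hk0⟩ := Nat.sInf_mem this
    refine ⟨k0, fun k => ?_⟩
    simp only at hk0
    rw [hk0]
    exact Nat.sInf_le ⟨k, rfl⟩
  have hub : g k0 = .inl false := by
    have ha := (theta_adj.mp (hg.adj k0))
    have hb := (theta_adj.mp (hg.adj (k0 - 1)))
    rw [show k0 - 1 + 1 = k0 by ring] at hb
    have m1 := hk0 (k0 + 1)
    have m2 := hk0 (k0 - 1)
    have l1 := pos_le (g (k0 + 1))
    rcases hgk : g k0 with b | ⟨a, i⟩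
    · cases b
      · rfl
      · exfalso
        rw [hgk, pos_t] at ha m1
        omega
    · exfalso
      rw [hgk] at ha hb
      rw [hgk, pos_r] at m1 m2
      rw [pos_r] at ha hb
      have e1 := eq_pt_of_compat ha.1
      have e2 := eq_pt_of_compat (compat_symm hb.1)
      have := h2 (k0 - 1)
      rw [show k0 - 1 + 2 = k0 + 1 by ring] at this
      apply this
      rw [e1, e2]
      congr 1
      omega
  -- following a lane
  have lane : ∀ g : ℤ → TV D q, IsCyc (theta D q) l g → (∀ k, g k ≠ g (k + 2)) →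
      g 0 = .inl false → ∃ a : Fin D, ∀ k : ℕ, k ≤ q + 1 → g k = pt a k := by
    intro g hg h2 h0
    have h1 := theta_adj.mp (hg.adj 0)
    rw [h0, pos_f] at h1
    simp only [zero_add] at h1
    have h1' : pos (g 1) = 1 := by
      have := h1.2
      omega
    obtain ⟨a, ha⟩ : ∃ a : Fin D, g 1 = pt a 1 := by
      rcases hg1 : g 1 with b | ⟨a, i⟩
      · rw [hg1] at h1'
        cases b
        · simp [pos] at h1'
        · rw [pos_t] at h1'; omega
      · refine ⟨a, ?_⟩
        rw [hg1, pos_r] at h1'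
        rw [← pt_pos, h1']
    refine ⟨a, ?_⟩
    have main : ∀ k : ℕ, k ≤ q → g k = pt a k ∧ g (k + 1 : ℕ) = pt a (k + 1) := by
      intro k
      induction k with
      | zero =>
        intro _
        refine ⟨?_, ?_⟩
        · rw [pt_zero]; exact_mod_cast h0
        · simpa using ha
      | succ k ih =>
        intro hk
        obtain ⟨i1, i2⟩ := ih (by omega)
        refine ⟨i2, ?_⟩
        have had := theta_adj.mp (hg.adj (k + 1 : ℕ))
        have e : pt a (k + 1) = (.inr (a, ⟨k, by omega⟩) : TV D q) := by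
          rw [← pt_pos]
        rw [i2] at had
        have hp : pos (pt a (k + 1) : TV D q) = k + 1 := pos_pt _ (by omega)
        rw [hp] at had
        have hc := had.1
        rw [e] at hc
        have e3 := eq_pt_of_compat hc
        rcases had.2 with h3 | h3
        · rw [← h3] at e3
          rw [← e3]
          rfl
        · exfalso
          have h4 : pos (g ((k + 1 : ℕ) + 1 : ℤ)) = k := by omega
          rw [h4, ← i1] at e3
          apply h2 k
          rw [← e3]
          congr 1
    intro k hk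
    rcases Nat.lt_or_ge k (q + 1) with h | h
    · exact (main k (by omega)).1
    · have : k = q + 1 := by omega
      rw [this]
      exact (main q le_rfl).2
  have gs := hg.shift k0
  have gn := gs.neg
  obtain ⟨a, ha⟩ := lane _ gs (by
    intro k
    have := h2 (k + k0)
    rwa [show k + k0 + 2 = k + 2 + k0 by ring] at this) (by simpa using hub)
  obtain ⟨b, hb⟩ := lane _ gn (by
    intro k
    have := (h2 (-(k + 2) + k0)).symm
    rwa [show -(k + 2) + k0 + 2 = -k + k0 by ring] at this) (by simpa using hub)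
  have e1 := ha (q + 1) le_rfl
  have e2 := hb (q + 1) le_rfl
  rw [pt_last] at e1 e2
  have e3 : g (((q + 1 : ℕ) : ℤ) + k0) = g (-((q + 1 : ℕ) : ℤ) + k0) := e1.trans e2.symm
  rw [hg.inj] at e3
  have e4 : (l : ℤ) ∣ 2 * (q + 1) := by
    have h8 : -((q + 1 : ℕ) : ℤ) + k0 - (((q + 1 : ℕ) : ℤ) + k0) = -(2 * (q + 1)) := by
      push_cast; ring
    rw [h8, dvd_neg] at e3
    exact e3
  have e5 : q + 2 ≤ l := by
    by_contra hcon
    have h5 : g ((l : ℤ) + k0) = pt a l := ha l (by omega)
    have h6 : g ((l : ℤ) + k0) = g k0 := by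
      rw [hg.inj]
      exact ⟨-1, by ring⟩
    rw [h6, hub] at h5
    have h7 := congrArg pos h5
    rw [pos_pt _ (by omega), pos_f] at h7
    omega
  have e6 : l ∣ 2 * (q + 1) := by exact_mod_cast e4
  obtain ⟨c, hc⟩ := e6
  have : c = 1 := by
    have h7 : c < 2 := by
      by_contra h8
      have : l * 2 ≤ l * c := Nat.mul_le_mul_left _ (by omega)
      omega
    have h8 : c ≠ 0 := by rintro rfl; omega
    omega
  subst this
  omega

/-- The circle formed by the lanes `a` and `b`. -/
def circ (a b : Fin D) (k : ℤ) : TV D q :=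
  if (k % (2 * (q + 1) : ℤ)).toNat ≤ q + 1 then pt a (k % (2 * (q + 1) : ℤ)).toNat
  else pt b (2 * (q + 1) - (k % (2 * (q + 1) : ℤ)).toNat)

theorem circ_eq (a b : Fin D) {r : ℕ} (_hr : r < 2 * (q + 1)) {k : ℤ}
    (hk : k % (2 * (q + 1) : ℤ) = r) :
    (circ a b k : TV D q) = if r ≤ q + 1 then pt a r else pt b (2 * (q + 1) - r) := by
  unfold circ
  rw [hk]
  simp

theorem pt_inj_left {a b : Fin D} {j k : ℕ} (hj : j ≤ q + 1) (hk : k ≤ q + 1)
    (h : (pt a j : TV D q) = pt b k) : j = k := by
  have := congrArg pos h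
  rwa [pos_pt _ hj, pos_pt _ hk] at this

theorem pt_inj_right {a b : Fin D} {j : ℕ} (hj1 : 1 ≤ j) (hj : j ≤ q)
    (h : (pt a j : TV D q) = pt b j) : a = b := by
  unfold pt at h
  rw [dif_neg (by omega), dif_pos hj, dif_neg (by omega), dif_pos hj] at h
  simpa using h

theorem circ_isCyc {a b : Fin D} (hab : a ≠ b) :
    IsCyc (theta D q) (2 * (q + 1)) (circ a b) := by
  have hL : (0 : ℤ) < 2 * (q + 1) := by positivity
  have hr : ∀ k : ℤ, ∃ r : ℕ, r < 2 * (q + 1) ∧ k % (2 * (q + 1) : ℤ) = r := by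
    intro k
    refine ⟨(k % (2 * (q + 1) : ℤ)).toNat, ?_, ?_⟩
    · have := Int.emod_lt_of_pos k hL
      have := Int.emod_nonneg k hL.ne'
      omega
    · rw [Int.toNat_of_nonneg (Int.emod_nonneg k hL.ne')]
  constructor
  · intro k
    obtain ⟨r, hr1, hr2⟩ := hr k
    by_cases hc : r + 1 < 2 * (q + 1)
    · have h3 : (k + 1) % (2 * (q + 1) : ℤ) = (r + 1 : ℕ) := by
        rw [← Int.emod_add_emod, hr2]
        push_cast
        exact Int.emod_eq_of_lt (by positivity) (by exact_mod_cast hc)
      rw [circ_eq a b hr1 hr2, circ_eq a b hc h3]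
      split_ifs with h4 h5 h5
      · exact adj_pt a (by omega)
      · have h6 : r = q + 1 := by omega
        subst h6
        have h7 : 2 * (q + 1) - (q + 1 + 1) = q := by omega
        rw [h7, pt_last]
        have := (adj_pt (D := D) (q := q) b le_rfl).symm
        rwa [pt_last] at this
      · omega
      · have h7 : 2 * (q + 1) - r = 2 * (q + 1) - (r + 1) + 1 := by omega
        rw [h7]
        exact (adj_pt b (by omega)).symm
    · have h3 : r = 2 * q + 1 := by omega
      have h4 : (k + 1) % (2 * (q + 1) : ℤ) = (0 : ℕ) := by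
        rw [← Int.emod_add_emod, hr2, h3]
        push_cast
        rw [show (2 * (q : ℤ) + 1 + 1) = 2 * (q + 1) by ring]
        simp
      rw [circ_eq a b hr1 hr2, circ_eq a b (by omega) h4]
      simp only [Nat.zero_le, if_true]
      rw [pt_zero]
      by_cases hq : q = 0
      · subst hq
        have h5 : r = 1 := by omega
        subst h5
        rw [if_pos (by omega)]
        have := (adj_pt (D := D) (q := 0) a (k := 0) (by omega)).symm
        rwa [pt_zero] at this
      · rw [if_neg (by omega)]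
        have h7 : 2 * (q + 1) - r = 1 := by omega
        rw [h7]
        have := (adj_pt (D := D) (q := q) b (k := 0) (by omega)).symm
        rwa [pt_zero] at this
  · intro j k
    obtain ⟨r, hr1, hr2⟩ := hr j
    obtain ⟨s, hs1, hs2⟩ := hr k
    have key : (circ a b j : TV D q) = circ a b k ↔ r = s := by
      rw [circ_eq a b hr1 hr2, circ_eq a b hs1 hs2]
      constructor
      · intro h
        split_ifs at h with h1 h2 h2
        · exact pt_inj_left h1 h2 h
        · exfalso
          have h3 := pt_inj_left h1 (by omega) h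
          rw [h3] at h
          exact hab (pt_inj_right (by omega) (by omega) h)
        · exfalso
          have h3 := pt_inj_left (by omega) h2 h
          rw [h3] at h
          exact hab (pt_inj_right (by omega) (by omega) h).symm
        · have h3 := pt_inj_left (by omega) (by omega) h
          omega
      · rintro rfl
        rfl
    rw [key]
    push_cast
    constructor
    · intro h
      subst h
      apply Int.ModEq.dvd
      show j % _ = k % _
      rw [hr2, hs2]
    · intro h
      have h1 : j % (2 * (q + 1) : ℤ) = k % (2 * (q + 1) : ℤ) := Int.modEq_iff_dvd.mpr h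
      rw [hr2, hs2] at h1
      exact_mod_cast h1

theorem circ_nat (a b : Fin D) {k : ℕ} (hk : k ≤ q + 1) : (circ a b (k : ℤ) : TV D q) = pt a k := by
  rw [circ_eq a b (r := k) (by omega) (by
    exact Int.emod_eq_of_lt (by positivity) (by exact_mod_cast (by omega : k < 2 * (q + 1))))]
  rw [if_pos hk]

theorem circ_nat' (a b : Fin D) {k : ℕ} (hk0 : 1 ≤ k) (hk : k ≤ q) :
    (circ a b ((2 * (q + 1) - k : ℕ) : ℤ) : TV D q) = pt b k := by
  rw [circ_eq a b (r := 2 * (q + 1) - k) (by omega) (by
    exact Int.emod_eq_of_lt (by positivity)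
      (by exact_mod_cast (by omega : 2 * (q + 1) - k < 2 * (q + 1))))]
  rw [if_neg (by omega)]
  congr 1
  omega

theorem exists_other (hD : 2 ≤ D) (a : Fin D) : ∃ b : Fin D, a ≠ b := by
  have : Nontrivial (Fin D) := Fin.nontrivial_iff_two_le.mpr hD
  obtain ⟨b, hb⟩ := exists_ne a
  exact ⟨b, hb.symm⟩

/-- Any two vertices lie on a common circle. -/
theorem exists_circ (hD : 2 ≤ D) (x y : TV D q) :
    ∃ a b : Fin D, a ≠ b ∧ ∃ j k : ℤ, circ a b j = x ∧ circ a b k = y := by
  have hubs : ∀ (a b : Fin D) (c : Bool), ∃ j : ℤ, (circ a b j : TV D q) = .inl c := by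
    intro a b c
    cases c
    · exact ⟨((0 : ℕ) : ℤ), by rw [circ_nat a b (by omega), pt_zero]⟩
    · exact ⟨((q + 1 : ℕ) : ℤ), by rw [circ_nat a b le_rfl, pt_last]⟩
  have left : ∀ (a b : Fin D) (i : Fin q), ∃ j : ℤ, (circ a b j : TV D q) = .inr (a, i) := by
    intro a b i
    refine ⟨((i.val + 1 : ℕ) : ℤ), ?_⟩
    rw [circ_nat a b (by omega), pt_pos]
  have right : ∀ (a b : Fin D) (i : Fin q), ∃ j : ℤ, (circ a b j : TV D q) = .inr (b, i) := by
    intro a b i
    refine ⟨((2 * (q + 1) - (i.val + 1) : ℕ) : ℤ), ?_⟩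
    rw [circ_nat' a b (by omega) (by omega), pt_pos]
  rcases x with cx | ⟨ax, ix⟩
  · rcases y with cy | ⟨ay, iy⟩
    · obtain ⟨b, hb⟩ := exists_other hD ⟨0, by omega⟩
      obtain ⟨j, hj⟩ := hubs _ b cx
      obtain ⟨k, hk⟩ := hubs _ b cy
      exact ⟨_, b, hb, j, k, hj, hk⟩
    · obtain ⟨b, hb⟩ := exists_other hD ay
      obtain ⟨j, hj⟩ := hubs _ b cx
      obtain ⟨k, hk⟩ := left _ b iy
      exact ⟨_, b, hb, j, k, hj, hk⟩
  · rcases y with cy | ⟨ay, iy⟩
    · obtain ⟨b, hb⟩ := exists_other hD ax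
      obtain ⟨j, hj⟩ := left _ b ix
      obtain ⟨k, hk⟩ := hubs _ b cy
      exact ⟨_, b, hb, j, k, hj, hk⟩
    · by_cases h : ax = ay
      · subst h
        obtain ⟨b, hb⟩ := exists_other hD ax
        obtain ⟨j, hj⟩ := left _ b ix
        obtain ⟨k, hk⟩ := left _ b iy
        exact ⟨_, b, hb, j, k, hj, hk⟩
      · obtain ⟨j, hj⟩ := left ax ay ix
        obtain ⟨k, hk⟩ := right ax ay iy
        exact ⟨_, _, h, j, k, hj, hk⟩

/-- Two nonadjacent vertices of a cycle of length `2 p`: joining them creates a cycle of length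
between `p + 1` and `2 p - 1`. -/
theorem long_arc {V : Type*} {G : SimpleGraph V} {p : ℕ} (hp : 1 ≤ p) {g : ℤ → V}
    (hg : IsCyc G (2 * p) g) {j k : ℤ} (hne : g j ≠ g k) (hadj : ¬ G.Adj (g j) (g k)) :
    ∃ l, p + 1 ≤ l ∧ l ≤ 2 * p - 1 ∧ (cycleGraph l) ⊑ G ⊔ edge (g j) (g k) := by
  -- the statement for a long arc starting at `j`
  have key : ∀ (j k : ℤ) (d : ℕ), ((2 * p : ℕ) : ℤ) ∣ k - j - d → p ≤ d → d < 2 * p → g j ≠ g k →
      ¬ G.Adj (g j) (g k) →
      ∃ l, p + 1 ≤ l ∧ l ≤ 2 * p - 1 ∧ (cycleGraph l) ⊑ G ⊔ edge (g j) (g k) := by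
    intro j k d hd h1 h2 hne hadj
    have e : g (j + d) = g k := by
      rw [hg.inj]
      rwa [show k - (j + d) = k - j - d by ring]
    have h3 : d ≠ 2 * p - 1 := by
      intro h3
      apply hadj
      have h4 : g j = g (k + 1) := by
        rw [hg.inj]
        have h5 : k + 1 - j = (k - j - d) + ((2 * p : ℕ) : ℤ) := by
          have : (d : ℤ) + 1 = ((2 * p : ℕ) : ℤ) := by omega
          rw [← this]; ring
        rw [h5]
        exact dvd_add hd (dvd_refl _)
      rw [h4]
      exact (hg.adj k).symm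
    refine ⟨d + 1, by omega, by omega, contained_of_path (fun i => g (j + i)) ?_ ?_ ?_⟩
    · intro i hi
      left
      have := hg.adj (j + i)
      rw [show j + (i : ℤ) + 1 = j + ((i + 1 : ℕ) : ℤ) by push_cast; ring] at this
      exact this
    · intro i hi i' hi' hii
      have h5 := (hg.inj _ _).mp hii
      obtain ⟨c, hc⟩ := h5
      have h10 : c = 0 ∨ c ≤ -1 ∨ 1 ≤ c := by omega
      rcases h10 with h10 | h10 | h10
      · subst h10; omega
      · have : ((2 * p : ℕ) : ℤ) * c ≤ ((2 * p : ℕ) : ℤ) * (-1) :=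
          mul_le_mul_of_nonneg_left h10 (by omega)
        push_cast at *
        omega
      · have : ((2 * p : ℕ) : ℤ) * 1 ≤ ((2 * p : ℕ) : ℤ) * c :=
          mul_le_mul_of_nonneg_left h10 (by omega)
        push_cast at *
        omega
    · right
      simp only [Nat.cast_zero, add_zero]
      rw [e, edge_adj]
      exact ⟨Or.inr ⟨rfl, rfl⟩, hne.symm⟩
  have hL : (0 : ℤ) < ((2 * p : ℕ) : ℤ) := by omega
  obtain ⟨d, hd1, hd2⟩ : ∃ d : ℕ, d < 2 * p ∧ (k - j) % ((2 * p : ℕ) : ℤ) = d := by
    refine ⟨((k - j) % ((2 * p : ℕ) : ℤ)).toNat, ?_, ?_⟩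
    · have := Int.emod_lt_of_pos (k - j) hL
      have := Int.emod_nonneg (k - j) hL.ne'
      omega
    · rw [Int.toNat_of_nonneg (Int.emod_nonneg _ hL.ne')]
  have hd3 : ((2 * p : ℕ) : ℤ) ∣ k - j - d := by
    rw [← hd2]
    exact Int.dvd_self_sub_emod
  by_cases h : p ≤ d
  · exact key j k d hd3 h hd1 hne hadj
  · have h0 : d ≠ 0 := by
      rintro rfl
      apply hne
      rw [hg.inj]
      simpa using hd3
    obtain ⟨l, h1, h2, h3⟩ := key k j (2 * p - d) (by
      have h5 : j - k - ((2 * p - d : ℕ) : ℤ) = -(k - j - d) - ((2 * p : ℕ) : ℤ) := by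
        rw [Nat.cast_sub (by omega)]; ring
      rw [h5]
      exact dvd_sub (by rwa [dvd_neg]) (dvd_refl _)) (by omega) (by omega) hne.symm
      (fun h => hadj h.symm)
    rw [edge_comm] at h3
    exact ⟨l, h1, h2, h3⟩

/-- The theta graph has at most `D (q + 1)` edges. -/
theorem theta_edges (hq : 1 ≤ q) : (theta D q).edgeSet.ncard ≤ D * (q + 1) := by
  have hsub : (theta D q).edgeSet ⊆
      Set.range (fun x : Fin D × Fin (q + 1) => s(pt x.1 x.2.val, pt x.1 (x.2.val + 1))) := by
    have key : ∀ u v : TV D q, compat u v → pos u + 1 = pos v →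
        s(u, v) ∈ Set.range
          (fun x : Fin D × Fin (q + 1) => s(pt x.1 x.2.val, pt x.1 (x.2.val + 1))) := by
      intro u v h1 h2
      have hv := pos_le v
      have h3 : ∃ a : Fin D, u = pt a (pos u) ∧ v = pt a (pos u + 1) := by
        rcases u with b | ⟨a, i⟩
        · rcases v with b' | ⟨a, i⟩
          · exfalso
            cases b <;> cases b' <;> simp only [pos_f, pos_t] at h2 <;> omega
          · refine ⟨a, eq_pt_of_compat (compat_symm h1), ?_⟩
            rw [h2, pos_r, pt_pos]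
        · refine ⟨a, ?_, ?_⟩
          · rw [pos_r, pt_pos]
          · rw [h2]
            exact eq_pt_of_compat h1
      obtain ⟨a, h4, h5⟩ := h3
      refine ⟨(a, ⟨pos u, by omega⟩), ?_⟩
      simp only
      rw [← h4, ← h5]
    intro e he
    induction e using Sym2.ind with
    | _ u v =>
      rw [mem_edgeSet, theta_adj] at he
      rcases he.2 with h | h
      · exact key u v he.1 h
      · rw [Sym2.eq_swap]
        exact key v u (compat_symm he.1) h
  refine (Set.ncard_le_ncard hsub (Set.finite_range _)).trans ?_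
  rw [← Set.image_univ]
  refine (Set.ncard_image_le (Set.finite_univ)).trans ?_
  rw [Set.ncard_univ, Nat.card_prod]
  simp

theorem card_TV : Nat.card (TV D q) = D * q + 2 := by
  rw [Nat.card_sum, Nat.card_prod]
  simp
  ring

/-- The theta graph is saturated for the cycles of lengths up to `2 q + 1`. -/
theorem theta_saturated (hq : 1 ≤ q) (hD : 2 ≤ D) :
    (∀ l, 3 ≤ l → l ≤ 2 * q + 1 → ¬ (cycleGraph l) ⊑ theta D q) ∧
    ∀ x y : TV D q, x ≠ y → ¬ (theta D q).Adj x y →
      ∃ l, q + 2 ≤ l ∧ l ≤ 2 * q + 1 ∧ (cycleGraph l) ⊑ theta D q ⊔ edge x y := by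
  constructor
  · intro l h1 h2 h3
    rw [contained_iff h1] at h3
    obtain ⟨g, hg⟩ := h3
    have := theta_cycle hq h1 hg
    omega
  · intro x y hne hadj
    obtain ⟨a, b, hab, j, k, hj, hk⟩ := exists_circ hD x y
    subst hj hk
    obtain ⟨l, h1, h2, h3⟩ := long_arc (by omega) (circ_isCyc (q := q) hab) hne hadj
    exact ⟨l, by omega, by omega, h3⟩

end Pool.Agent.X49
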