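import Pool.Agent.X49.Cyc

/-!
A kernel-checkable search for paths of a given length in graphs on few vertices, given by the bit
masks of the neighbourhoods.
-/

namespace Pool.Agent.X49

/-- Is there a path with `r` edges from `v` to `t` whose vertices after `v` are below `N` and
avoid the set `vis`? -/
def walk (A : ℕ → ℕ) (N : ℕ) : ℕ → ℕ → ℕ → ℕ → Bool
  | 0, v, _, t => v == t
  | r + 1, v, vis, t => (List.range N).any fun u =>
      (A v).testBit u && (!(vis.testBit u) && walk A N r u (vis ||| (2 ^ u)) t)

theorem walk_of_path {A : ℕ → ℕ} {N : ℕ} : ∀ (r v vis t : ℕ) (p : ℕ → ℕ), p 0 = v → p r = t →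
    (∀ i < r, (A (p i)).testBit (p (i + 1)) = true) →
    (∀ i, 1 ≤ i → i ≤ r → vis.testBit (p i) = false ∧ p i < N) →
    (∀ i j, 1 ≤ i → i ≤ r → 1 ≤ j → j ≤ r → p i = p j → i = j) → walk A N r v vis t = true := by
  intro r
  induction r with
  | zero =>
    intro v vis t p h0 h1 _ _ _
    simp [walk, ← h0, ← h1]
  | succ r ih =>
    intro v vis t p h0 h1 hadj hvis hinj
    simp only [walk, List.any_eq_true, List.mem_range, Bool.and_eq_true, Bool.not_eq_true']
    refine ⟨p 1, (hvis 1 le_rfl (by omega)).2, ?_, (hvis 1 le_rfl (by omega)).1, ?_⟩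
    · have := hadj 0 (by omega)
      rwa [h0] at this
    · apply ih (p 1) _ t (fun i => p (i + 1)) rfl h1
      · intro i hi
        exact hadj (i + 1) (by omega)
      · intro i hi1 hi2
        refine ⟨?_, (hvis (i + 1) (by omega) (by omega)).2⟩
        rw [Nat.testBit_or, (hvis (i + 1) (by omega) (by omega)).1, Bool.false_or,
          Nat.testBit_two_pow]
        rw [decide_eq_false_iff_not]
        intro h
        have := hinj 1 (i + 1) le_rfl (by omega) (by omega) (by omega) h
        omega
      · intro i j hi1 hi2 hj1 hj2 h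
        have := hinj (i + 1) (j + 1) (by omega) (by omega) (by omega) (by omega) h
        omega

theorem path_of_walk {A : ℕ → ℕ} {N : ℕ} : ∀ (r v vis t : ℕ), vis.testBit v = true →
    walk A N r v vis t = true →
    ∃ p : ℕ → ℕ, p 0 = v ∧ p r = t ∧ (∀ i < r, (A (p i)).testBit (p (i + 1)) = true) ∧
    (∀ i, 1 ≤ i → i ≤ r → vis.testBit (p i) = false ∧ p i < N) ∧
    (∀ i j, i ≤ r → j ≤ r → p i = p j → i = j) := by
  intro r
  induction r with
  | zero =>
    intro v vis t hv h
    simp only [walk, beq_iff_eq] at h
    exact ⟨fun _ => v, rfl, h, fun i hi => absurd hi (by omega), fun i h1 h2 => by omega,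
      fun i j h1 h2 _ => by omega⟩
  | succ r ih =>
    intro v vis t hv h
    simp only [walk, List.any_eq_true, List.mem_range, Bool.and_eq_true, Bool.not_eq_true'] at h
    obtain ⟨u, hu, h1, h2, h3⟩ := h
    obtain ⟨p, p0, pr, padj, pvis, pinj⟩ := ih u (vis ||| (2 ^ u)) t (by
      rw [Nat.testBit_or, Nat.testBit_two_pow]; simp) h3
    have hvis' : ∀ i, i ≤ r → vis.testBit (p i) = false ∧ p i < N := by
      intro i hi
      rcases Nat.eq_zero_or_pos i with h | h
      · subst h; rw [p0]; exact ⟨h2, hu⟩
      · have h4 := pvis i h hi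
        rw [Nat.testBit_or, Bool.or_eq_false_iff] at h4
        exact ⟨h4.1.1, h4.2⟩
    refine ⟨fun i => if i = 0 then v else p (i - 1), rfl, ?_, ?_, ?_, ?_⟩
    · simpa using pr
    · intro i hi
      rcases Nat.eq_zero_or_pos i with h | h
      · subst h
        simpa [p0] using h1
      · simp only [if_neg h.ne', Nat.add_one_ne_zero, if_false]
        have := padj (i - 1) (by omega)
        rwa [show i - 1 + 1 = i + 1 - 1 by omega] at this
    · intro i hi1 hi2
      simp only [if_neg (show i ≠ 0 by omega)]
      exact hvis' (i - 1) (by omega)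
    · intro i j hi hj hij
      rcases Nat.eq_zero_or_pos i with h | h <;> rcases Nat.eq_zero_or_pos j with h' | h'
      · omega
      · subst h
        simp only [if_true, if_neg h'.ne'] at hij
        have := (hvis' (j - 1) (by omega)).1
        rw [← hij, hv] at this
        simp at this
      · subst h'
        simp only [if_true, if_neg h.ne'] at hij
        have := (hvis' (i - 1) (by omega)).1
        rw [hij, hv] at this
        simp at this
      · simp only [if_neg h.ne', if_neg h'.ne'] at hij
        have := pinj (i - 1) (j - 1) (by omega) (by omega) hij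
        omega

end Pool.Agent.X49
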